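import Pool.Agent.TH27.FS.Main

/-!
# The final assembly
-/

set_option autoImplicit false

namespace Pool.Agent.TH27.FS

open Equiv

/-- five marker words of length four over three letters -/
def wd3 (a : Fin 5) (i : ℤ) : Fin 3 :=
  if i = 0 then 2 else if i = 1 then (if a = 4 then 1 else 0) else
    if i = 2 then (if a = 2 ∨ a = 3 then 1 else 0) else (if a = 1 ∨ a = 3 then 1 else 0)

/-- the marker system over three letters -/
def MS3 : MS (Fin 3) where
  μ := 4
  hμ := by norm_num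
  wd := wd3
  bad x := x = 2
  no a b s h1 h2 := by
    refine ⟨0, le_refl _, by simpa using h2, ?_⟩
    have hs : s = 1 ∨ s = 2 ∨ s = 3 := by
      have : s < 4 := by exact_mod_cast h2
      omega
    have key : ∀ a b : Fin 5, wd3 a 1 ≠ wd3 b 0 ∧ wd3 a 2 ≠ wd3 b 0 ∧ wd3 a 3 ≠ wd3 b 0 := by
      decide
    rcases hs with rfl | rfl | rfl
    · exact (key a b).1
    · exact (key a b).2.1
    · exact (key a b).2.2
  ne a b h := by
    have key : ∀ a b : Fin 5, a ≠ b → wd3 a 1 ≠ wd3 b 1 ∨ wd3 a 2 ≠ wd3 b 2 ∨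
        wd3 a 3 ≠ wd3 b 3 := by decide
    rcases key a b h with h | h | h
    · exact ⟨1, by norm_num, by norm_num, h⟩
    · exact ⟨2, by norm_num, by norm_num, h⟩
    · exact ⟨3, by norm_num, by norm_num, h⟩
  hbad a := ⟨0, le_refl _, by norm_num, rfl⟩
  o := 0
  e := 1
  ho := by decide
  he := by decide
  hoe := by decide

theorem el_ne_one {A : Type} {l : ℕ} (F : Fam A l) {a b c : Fin l → A} (ha : a ∈ F.Z)
    (hb : b ∈ F.Z) (hc : c ∈ F.Z) (h : D3 a b c) (hs : ∃ x p, F.site x p) :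
    F.el F.good_true (Fam.ok_tc ha hb hc) ≠ 1 := by
  classical
  obtain ⟨x, p, hx⟩ := hs
  intro h1
  have hm := F.mod_ovr hx ha
  have hy := hm.site hx
  have e1 : actf (F.ctl (fun _ _ => True) (tc a b c)) (ovr l x p a) = ovr l x p a := by
    rw [← Fam.el_apply F F.good_true (Fam.ok_tc ha hb hc), h1]; rfl
  have e2 := cont_actf (Fam.ctl_mem F.good_true (Fam.ok_tc ha hb hc)) hy
  rw [e1, cont_ovr, Fam.ctl, if_pos ⟨hy, trivial⟩, tc_a h] at e2
  exact h.1 e2

theorem exists_noncentral {A : Type} (S : MS A) (m : ℕ) (hm : 3 ≤ m) (ρ : Fin S.μ → A) :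
    ∃ (a b c : Fin (m + 2 * S.μ) → A) (ha : a ∈ (S.FA 0 (m + 2 * S.μ) ρ).Z)
      (hb : b ∈ (S.FA 0 (m + 2 * S.μ) ρ).Z) (hc : c ∈ (S.FA 0 (m + 2 * S.μ) ρ).Z), D3 a b c ∧
      (S.FA 0 (m + 2 * S.μ) ρ).el (Fam.good_true _) (Fam.ok_tc ha hb hc) ∉
        Subgroup.center (AutG A) := by
  classical
  obtain ⟨φ, hφ, hφZ⟩ := FA_many S m (w := 0) (by decide) ρ
  set F := S.FA 0 (m + 2 * S.μ) ρ with hF
  have hcard : 5 ≤ (Finset.univ.image φ).card := by
    rw [Finset.card_image_of_injective _ hφ, Finset.card_univ, Fintype.card_fun,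
      Fintype.card_bool, Fintype.card_fin]
    calc 5 ≤ 2 ^ 3 := by norm_num
      _ ≤ 2 ^ m := Nat.pow_le_pow_right (by norm_num) hm
  have hZ : ∀ z ∈ Finset.univ.image φ, z ∈ F.Z := by
    intro z hz
    obtain ⟨t, _, rfl⟩ := Finset.mem_image.1 hz
    exact hφZ t
  obtain ⟨a, haS, b, hbS, c, hcS, habc⟩ := exists_three_distinct (Finset.univ.image φ) (by omega)
  have h4 : 1 < (Finset.univ.image φ \ {a, b, c}).card := by
    have := Finset.le_card_sdiff ({a, b, c} : Finset _) (Finset.univ.image φ)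
    have h3 : ({a, b, c} : Finset (Fin (m + 2 * S.μ) → A)).card ≤ 3 := Finset.card_le_three
    omega
  obtain ⟨d, hd, e, he, hde⟩ := Finset.one_lt_card.1 h4
  simp only [Finset.mem_sdiff, Finset.mem_insert, Finset.mem_singleton, not_or] at hd he
  have ha := hZ a haS
  have hb := hZ b hbS
  have hc := hZ c hcS
  have hd' := hZ d hd.1
  have he' := hZ e he.1
  have h1 : D3 a d e := ⟨Ne.symm hd.2.1, Ne.symm he.2.1, hde⟩
  have h2 : D3 b d e := ⟨Ne.symm hd.2.2.1, Ne.symm he.2.2.1, hde⟩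
  have h3 : D3 c d e := ⟨Ne.symm hd.2.2.2, Ne.symm he.2.2.2, hde⟩
  refine ⟨a, b, d, ha, hb, hd', ⟨habc.1, h1.1, h2.1⟩, fun hcen => ?_⟩
  have hcomm := Subgroup.mem_center_iff.1 hcen (F.el F.good_true (Fam.ok_tc ha hc he'))
  apply el_ne_one F ha hb hc habc
  · obtain ⟨x, p, hx, _⟩ := ha
    exact ⟨x, p, hx⟩
  · have : F.el F.good_true (Fam.ok_tc ha hb hc) =
        F.el F.good_true (Fam.ok_tc ha hb hd') * F.el F.good_true (Fam.ok_tc ha hc he') *
        (F.el F.good_true (Fam.ok_tc ha hb hd'))⁻¹ *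
        (F.el F.good_true (Fam.ok_tc ha hc he'))⁻¹ := by
      rw [Fam.el_inv, Fam.el_inv, Fam.el_mul, Fam.el_mul, Fam.el_mul]
      apply AutG.ext'
      intro x
      rw [Fam.el_apply, Fam.el_apply, tc_comm habc h1 h2 h3]
    rw [this, ← hcomm]
    group

theorem no_iso : ¬ Nonempty (AutG (Fin 2) ≃* AutG (Fin 3)) := by
  classical
  rintro ⟨Φ⟩
  set S := MS3 with hS
  obtain ⟨a, b, c, ha, hb, hc, habc, hcen⟩ := exists_noncentral S 10 (by norm_num) (fun _ => 0)
  set g₀ := (S.FA 0 (10 + 2 * S.μ) (fun _ => 0)).el (Fam.good_true _) (Fam.ok_tc ha hb hc)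
    with hg₀
  have hcen' : Φ.symm g₀ ∉ Subgroup.center (AutG (Fin 2)) := by
    intro h
    apply hcen
    rw [Subgroup.mem_center_iff] at h ⊢
    intro g
    have := h (Φ.symm g)
    rw [← map_mul, ← map_mul] at this
    exact Φ.symm.injective this
  have hK : ∃ K : ℕ, ∀ k ≥ K, theta (Fin 2) k (Φ.symm g₀) ≠ 1 := by
    by_contra hcon
    push Not at hcon
    exact hcen' (Pool.Agent.TH182.J513.mem_center_of_theta _ hcon)
  obtain ⟨K, hK⟩ := hK
  apply no_common_orbit_counts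
  refine ⟨max K 10, fun k hk => ?_⟩
  have hkK : K ≤ k := le_trans (le_max_left _ _) hk
  have hk10 : 10 ≤ k := le_trans (le_max_right _ _) hk
  have hfin : Finite (Orb (Fin 2) k) := orb_finite (Fin 2) (by omega)
  let _ : Fintype (Orb (Fin 2) k) := Fintype.ofFinite _
  set ψ : AutG (Fin 3) →* Perm (Orb (Fin 2) k) :=
    (theta (Fin 2) k).comp Φ.symm.toMonoidHom with hψ
  have hψs : Function.Surjective ψ := by
    rw [hψ, MonoidHom.coe_comp]
    exact (Pool.Agent.TH554.J514.theta_surjective (Fin 2) k (by omega)).comp Φ.symm.surjective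
  have hψ0 : ψ g₀ ≠ 1 := hK k hkK
  have hΩ : 5 ≤ Fintype.card (Orb (Fin 2) k) := by
    rw [← Nat.card_eq_fintype_card]
    have := orb_two_large k hk10
    omega
  have hker : revN ψ.ker = (ψ.comp (revG (A := Fin 3)).toMonoidHom).ker := by
    rw [revN, MonoidHom.comap_ker]
  set ψ' : AutG (Fin 3) →* Perm (Orb (Fin 2) k) := ψ.comp (revG (A := Fin 3)).toMonoidHom with hψ'
  have hψs' : Function.Surjective ψ' := by
    rw [hψ', MonoidHom.coe_comp]
    exact hψs.comp (revG (A := Fin 3)).surjective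
  obtain ⟨L, hL⟩ := KR_of_large S ψ
  obtain ⟨L', hL'⟩ := KR_of_large S.rev ψ'
  have hfail : ∃ l, 2 * S.μ + 10 ≤ l ∧ ¬ (KR S ψ.ker l ∧ KR S.rev ψ'.ker l) ∧
      (KR S ψ.ker (l + 1) ∧ KR S.rev ψ'.ker (l + 1)) := by
    by_contra hcon
    push Not at hcon
    have hdown : ∀ j : ℕ, (KR S ψ.ker (2 * S.μ + 10 + j) ∧ KR S.rev ψ'.ker (2 * S.μ + 10 + j)) →
        (KR S ψ.ker (2 * S.μ + 10) ∧ KR S.rev ψ'.ker (2 * S.μ + 10)) := by
      intro j
      induction j with
      | zero => exact fun h => h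
      | succ j ih =>
        intro h
        apply ih
        by_contra hc
        exact hcon (2 * S.μ + 10 + j) (by omega) (fun h1 h2 => hc ⟨h1, h2⟩) h.1 h.2
    have h0 := (hdown (L + L') ⟨hL _ (by omega), hL' _ (by omega)⟩).1
    apply hψ0
    rw [show 2 * S.μ + 10 = 10 + 2 * S.μ by ring] at h0
    have h1 := h0 0 (fun _ => 0) (by decide) a b c ha hb hc habc
    exact (Fam.el_mem (hC := Fam.good_true _) (hπ := Fam.ok_tc ha hb hc)).2 h1
  obtain ⟨l, hl, hn, h1, h2⟩ := hfail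
  rw [Nat.card_eq_fintype_card]
  by_cases h3 : KR S ψ.ker l
  · have h4 : ¬ KR S.rev ψ'.ker l := fun h => hn ⟨h3, h⟩
    obtain ⟨m, hm1, hm2⟩ := card_of_failure S.rev (fun d hd => orb_three_large d hd) hΩ ψ' hψs' hl
      h2 (by rw [MS.rev_rev, ← hker, revN_revN]; exact h1) h4
    exact ⟨m, hm1, hm2.symm⟩
  · obtain ⟨m, hm1, hm2⟩ := card_of_failure S (fun d hd => orb_three_large d hd) hΩ ψ hψs hl h1
      (by rw [hker]; exact h2) h3
    exact ⟨m, hm1, hm2.symm⟩

end Pool.Agent.TH27.FS
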