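import Mathlib

/-!
# Automorphisms of full shifts: definitions

`AutG A` is the group of shift commuting bijections of `ℤ → A` that are local together with their
inverses.  `Orb A k` is the (finite) set of shift orbits of points of least period `k` and
`theta A k : AutG A →* Perm (Orb A k)` is the action.
-/

set_option autoImplicit false

namespace Pool.Agent.TH27.FS

/-- translate of a configuration -/
def sh {A : Type} (n : ℤ) (x : ℤ → A) : ℤ → A := fun i => x (i + n)

@[simp] theorem sh_apply {A : Type} (n : ℤ) (x : ℤ → A) (i : ℤ) : sh n x i = x (i + n) := rfl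

theorem sh_sh {A : Type} (m n : ℤ) (x : ℤ → A) : sh m (sh n x) = sh (m + n) x := by
  funext i; simp [sh, add_assoc]

@[simp] theorem sh_zero {A : Type} (x : ℤ → A) : sh 0 x = x := by
  funext i; simp [sh]

/-- locality with a uniform radius -/
def LocalMap {A : Type} (f : (ℤ → A) → (ℤ → A)) : Prop :=
  ∃ r : ℕ, ∀ (x y : ℤ → A) (n : ℤ), (∀ i, n - r ≤ i → i ≤ n + r → x i = y i) → f x n = f y n

theorem LocalMap.id {A : Type} : LocalMap (fun x : ℤ → A => x) :=
  ⟨0, fun x y n h => h n (by simp) (by simp)⟩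

theorem LocalMap.comp {A : Type} {f g : (ℤ → A) → (ℤ → A)} (hf : LocalMap f) (hg : LocalMap g) :
    LocalMap (fun x => f (g x)) := by
  obtain ⟨r, hr⟩ := hf
  obtain ⟨s, hs⟩ := hg
  refine ⟨r + s, fun x y n h => hr _ _ n fun i h1 h2 => hs _ _ i fun j h3 h4 => h j ?_ ?_⟩
  · push_cast at *; linarith
  · push_cast at *; linarith

/-- The group of shift commuting bijections which are local in both directions. -/
def AutG (A : Type) : Subgroup (Equiv.Perm (ℤ → A)) where
  carrier := {f | (∀ n x, f (sh n x) = sh n (f x)) ∧ LocalMap f ∧ LocalMap f.symm}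
  mul_mem' := by
    rintro f g ⟨h1, h2, h3⟩ ⟨h4, h5, h6⟩
    refine ⟨fun n x => ?_, ?_, ?_⟩
    · simp only [Equiv.Perm.coe_mul, Function.comp_apply, h4, h1]
    · exact h2.comp h5
    · exact h6.comp h3
  one_mem' := ⟨fun _ _ => rfl, LocalMap.id, LocalMap.id⟩
  inv_mem' := by
    rintro f ⟨h1, h2, h3⟩
    refine ⟨fun n x => ?_, h3, h2⟩
    apply f.injective
    rw [h1]
    simp

theorem AutG.comm {A : Type} (g : AutG A) (n : ℤ) (x : ℤ → A) : g.1 (sh n x) = sh n (g.1 x) :=
  g.2.1 n x

theorem AutG.loc {A : Type} (g : AutG A) : LocalMap g.1 := g.2.2.1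

@[simp] theorem AutG.mul_apply {A : Type} (g h : AutG A) (x : ℤ → A) :
    (g * h).1 x = g.1 (h.1 x) := rfl

@[simp] theorem AutG.one_apply {A : Type} (x : ℤ → A) : (1 : AutG A).1 x = x := rfl

@[simp] theorem AutG.inv_apply_self {A : Type} (g : AutG A) (x : ℤ → A) :
    (g⁻¹).1 (g.1 x) = x := by
  change (g.1)⁻¹ (g.1 x) = x; simp

@[simp] theorem AutG.apply_inv_self {A : Type} (g : AutG A) (x : ℤ → A) :
    g.1 ((g⁻¹).1 x) = x := by
  change g.1 ((g.1)⁻¹ x) = x; simp

theorem AutG.ext' {A : Type} {g h : AutG A} (H : ∀ x, g.1 x = h.1 x) : g = h :=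
  Subtype.ext (Equiv.ext H)

/-- `x` has least period `k` -/
def LP {A : Type} (k : ℕ) (x : ℤ → A) : Prop :=
  (∀ i, x (i + k) = x i) ∧ ∀ s : ℕ, 0 < s → s < k → ∃ i, x (i + s) ≠ x i

/-- points of least period `k` -/
def PP (A : Type) (k : ℕ) : Type := {x : ℤ → A // LP k x}

/-- being in the same shift orbit -/
instance PP.setoid (A : Type) (k : ℕ) : Setoid (PP A k) where
  r x y := ∃ n : ℤ, y.1 = sh n x.1
  iseqv := by
    refine ⟨fun x => ⟨0, by simp⟩, ?_, ?_⟩
    · rintro x y ⟨n, hn⟩
      exact ⟨-n, by rw [hn, sh_sh]; simp⟩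
    · rintro x y z ⟨n, hn⟩ ⟨m, hm⟩
      exact ⟨m + n, by rw [hm, hn, sh_sh]⟩

theorem PP.equiv_iff {A : Type} {k : ℕ} (x y : PP A k) : x ≈ y ↔ ∃ n : ℤ, y.1 = sh n x.1 := Iff.rfl

/-- orbits of least period `k` -/
def Orb (A : Type) (k : ℕ) : Type := Quotient (PP.setoid A k)

theorem LP.map {A : Type} {k : ℕ} (g : AutG A) {x : ℤ → A} (hx : LP k x) : LP k (g.1 x) := by
  have key : ∀ s : ℕ, (∀ i, g.1 x (i + s) = g.1 x i) ↔ (∀ i, x (i + s) = x i) := by
    intro s
    have e1 : (∀ i, g.1 x (i + s) = g.1 x i) ↔ sh s (g.1 x) = g.1 x :=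
      ⟨fun h => funext h, fun h i => congrFun h i⟩
    have e2 : (∀ i, x (i + s) = x i) ↔ sh s x = x := ⟨fun h => funext h, fun h i => congrFun h i⟩
    rw [e1, e2, ← AutG.comm g, g.1.injective.eq_iff]
  refine ⟨(key k).2 hx.1, fun s h1 h2 => ?_⟩
  by_contra hc
  push Not at hc
  obtain ⟨i, hi⟩ := hx.2 s h1 h2
  exact hi ((key s).1 hc i)

/-- the map induced on points of least period `k` -/
def mapPP {A : Type} {k : ℕ} (g : AutG A) (x : PP A k) : PP A k := ⟨g.1 x.1, x.2.map g⟩

theorem mapPP_rel {A : Type} {k : ℕ} (g : AutG A) (x y : PP A k) (h : x ≈ y) :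
    mapPP g x ≈ mapPP g y := by
  obtain ⟨n, hn⟩ := h
  refine ⟨n, ?_⟩
  change g.1 y.1 = sh n (g.1 x.1)
  rw [hn, AutG.comm g]

/-- the map induced on orbits -/
def mapOrb {A : Type} {k : ℕ} (g : AutG A) : Orb A k → Orb A k :=
  Quotient.map (mapPP g) (fun x y h => mapPP_rel g x y h)

theorem mapOrb_mk {A : Type} {k : ℕ} (g : AutG A) (x : PP A k) :
    mapOrb g (Quotient.mk _ x : Orb A k) = Quotient.mk _ (mapPP g x) := rfl

/-- The action on the orbits of least period `k`. -/
def theta (A : Type) (k : ℕ) : AutG A →* Equiv.Perm (Orb A k) where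
  toFun g :=
    { toFun := mapOrb g
      invFun := mapOrb g⁻¹
      left_inv := by
        intro q
        induction q using Quotient.inductionOn with
        | _ x =>
          rw [mapOrb_mk, mapOrb_mk]
          congr 1
          apply Subtype.ext
          simp [mapPP]
      right_inv := by
        intro q
        induction q using Quotient.inductionOn with
        | _ x =>
          rw [mapOrb_mk, mapOrb_mk]
          congr 1
          apply Subtype.ext
          simp [mapPP] }
  map_one' := by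
    ext q
    induction q using Quotient.inductionOn with
    | _ x => rfl
  map_mul' := by
    intro g h
    ext q
    induction q using Quotient.inductionOn with
    | _ x => rfl

theorem theta_mk {A : Type} {k : ℕ} (g : AutG A) (x : PP A k) :
    theta A k g (Quotient.mk _ x : Orb A k) = Quotient.mk _ (mapPP g x) := rfl

end Pool.Agent.TH27.FS
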