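import Pool.Agent.TH27.FS.Defs

/-!
# Controlled content permutations
-/

set_option autoImplicit false

namespace Pool.Agent.TH27.FS

open Classical in
/-- simultaneous application of moves -/
noncomputable def amalg {A : Type} (x : ℤ → A) (m : ℤ → ℤ → A) : ℤ → A := fun j =>
  if h : ∃ p, m p j ≠ x j then m h.choose j else x j

/-- at most one value is proposed at each place -/
def Uniq {A : Type} (x : ℤ → A) (m : ℤ → ℤ → A) : Prop :=
  ∀ p q j, m p j ≠ x j → m q j ≠ x j → m p j = m q j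

theorem amalg_eq {A : Type} {x : ℤ → A} {m : ℤ → ℤ → A} (hu : Uniq x m) {p j : ℤ}
    (h : m p j ≠ x j) : amalg x m j = m p j := by
  have h' : ∃ p, m p j ≠ x j := ⟨p, h⟩
  rw [amalg, dif_pos h']
  exact hu _ _ _ h'.choose_spec h

theorem amalg_not {A : Type} {x : ℤ → A} {m : ℤ → ℤ → A} {j : ℤ}
    (h : ∀ p, m p j = x j) : amalg x m j = x j := by
  have h' : ¬ ∃ p, m p j ≠ x j := by push Not; exact h
  rw [amalg, dif_neg h']

theorem amalg_congr {A : Type} {x : ℤ → A} {m₁ m₂ : ℤ → ℤ → A} (hu : Uniq x m₂)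
    (h1 : ∀ p, m₁ p = x ∨ ∃ q, m₁ p = m₂ q) (h2 : ∀ q, m₂ q = x ∨ ∃ p, m₂ q = m₁ p) :
    amalg x m₁ = amalg x m₂ := by
  have hu1 : Uniq x m₁ := by
    intro p q j hp hq
    rcases h1 p with h | ⟨p', h⟩
    · exact absurd (congrFun h j) hp
    rcases h1 q with h' | ⟨q', h'⟩
    · exact absurd (congrFun h' j) hq
    rw [h] at hp ⊢
    rw [h'] at hq ⊢
    exact hu _ _ _ hp hq
  funext j
  by_cases hj : ∃ p, m₁ p j ≠ x j
  · obtain ⟨p, hp⟩ := hj
    rw [amalg_eq hu1 hp]
    rcases h1 p with h | ⟨q, h⟩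
    · exact absurd (congrFun h j) hp
    rw [h] at hp ⊢
    rw [amalg_eq hu hp]
  · push Not at hj
    rw [amalg_not hj, amalg_not]
    intro q
    rcases h2 q with h | ⟨p, h⟩
    · exact congrFun h j
    · rw [h]; exact hj p

/-- content of length `l` at `p` -/
def cont {A : Type} (l : ℕ) (x : ℤ → A) (p : ℤ) : Fin l → A := fun i => x (p + i)

/-- overwrite -/
def ovr {A : Type} (l : ℕ) (x : ℤ → A) (p : ℤ) (w : Fin l → A) : ℤ → A := fun j =>
  if h : p ≤ j ∧ j < p + l then w ⟨(j - p).toNat, by omega⟩ else x j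

theorem ovr_out {A : Type} {l : ℕ} {x : ℤ → A} {p : ℤ} {w : Fin l → A} {j : ℤ}
    (h : ¬ (p ≤ j ∧ j < p + l)) : ovr l x p w j = x j := by
  rw [ovr, dif_neg h]

theorem ovr_in {A : Type} {l : ℕ} {x : ℤ → A} {p : ℤ} {w : Fin l → A} (i : Fin l) :
    ovr l x p w (p + i) = w i := by
  have h : p ≤ p + (i : ℤ) ∧ p + (i : ℤ) < p + l := by
    have := i.2
    omega
  rw [ovr, dif_pos h]
  congr 1
  apply Fin.ext
  simp

@[simp] theorem cont_ovr {A : Type} {l : ℕ} (x : ℤ → A) (p : ℤ) (w : Fin l → A) :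
    cont l (ovr l x p w) p = w := by
  funext i
  exact ovr_in i

theorem ovr_cont {A : Type} (l : ℕ) (x : ℤ → A) (p : ℤ) : ovr l x p (cont l x p) = x := by
  funext j
  by_cases h : p ≤ j ∧ j < p + l
  · obtain ⟨i, rfl⟩ : ∃ i : Fin l, j = p + i :=
      ⟨⟨(j - p).toNat, by omega⟩, by simp; omega⟩
    rw [ovr_in]; rfl
  · rw [ovr_out h]

theorem exists_fin {l : ℕ} {p j : ℤ} (h : p ≤ j ∧ j < p + l) : ∃ i : Fin l, j = p + i :=
  ⟨⟨(j - p).toNat, by omega⟩, by simp; omega⟩

theorem cont_congr {A : Type} {l : ℕ} {x y : ℤ → A} {p q : ℤ}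
    (h : ∀ i : ℤ, 0 ≤ i → i < l → x (p + i) = y (q + i)) : cont l x p = cont l y q := by
  funext i
  exact h i (by simp) (by have := i.2; omega)

theorem cont_eq_iff {A : Type} {l : ℕ} {x y : ℤ → A} {p q : ℤ} :
    cont l x p = cont l y q ↔ ∀ i : ℤ, 0 ≤ i → i < l → x (p + i) = y (q + i) := by
  refine ⟨fun h i h0 h1 => ?_, cont_congr⟩
  have := congrFun h ⟨i.toNat, by omega⟩
  simp only [cont] at this
  rwa [Int.toNat_of_nonneg h0] at this

theorem cont_sh {A : Type} {l : ℕ} (n : ℤ) (x : ℤ → A) (p : ℤ) :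
    cont l (sh n x) p = cont l x (p + n) := by
  apply cont_congr
  intro i _ _
  simp only [sh_apply]
  congr 1; ring

theorem ovr_sh {A : Type} {l : ℕ} (n : ℤ) (x : ℤ → A) (p : ℤ) (w : Fin l → A) :
    ovr l (sh n x) p w = sh n (ovr l x (p + n) w) := by
  funext j
  by_cases h : p ≤ j ∧ j < p + l
  · obtain ⟨i, rfl⟩ := exists_fin h
    rw [ovr_in, sh_apply, show p + (i : ℤ) + n = (p + n) + i by ring, ovr_in]
  · rw [ovr_out h, sh_apply, sh_apply, ovr_out (by omega)]

/-- update data -/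
abbrev Upd (A : Type) (l : ℕ) := (ℤ → A) → ℤ → Equiv.Perm (Fin l → A)

/-- the move at `p` -/
def move {A : Type} {l : ℕ} (c : Upd A l) (x : ℤ → A) (p : ℤ) : ℤ → A :=
  ovr l x p (c x p (cont l x p))

/-- simultaneous moves -/
noncomputable def actf {A : Type} {l : ℕ} (c : Upd A l) (x : ℤ → A) : ℤ → A :=
  amalg x (move c x)

theorem move_out {A : Type} {l : ℕ} {c : Upd A l} {x : ℤ → A} {p j : ℤ}
    (h : ¬ (p ≤ j ∧ j < p + l)) : move c x p j = x j := ovr_out h

theorem move_one {A : Type} {l : ℕ} {c : Upd A l} {x : ℤ → A} {p : ℤ}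
    (h : c x p (cont l x p) = cont l x p) : move c x p = x := by
  rw [move, h, ovr_cont]

/-- A family of boxes. -/
structure Fam (A : Type) (l : ℕ) where
  site : (ℤ → A) → ℤ → Prop
  Z : Set (Fin l → A)
  site_sh : ∀ x n p, site (sh n x) p ↔ site x (p + n)
  site_loc : ∃ r : ℕ, ∀ (x y : ℤ → A) (p : ℤ), (∀ i : ℤ, p - r ≤ i → i ≤ p + r → x i = y i) →
    site x p → site y p
  memZ : ∀ x p, site x p → cont l x p ∈ Z
  disj : ∀ x p q, site x p → site x q → p < q → p + l ≤ q
  inv : ∀ x y, (∀ j, (∀ p, site x p → ¬ (p ≤ j ∧ j < p + l)) → y j = x j) →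
        (∀ p, site x p → cont l y p ∈ Z) → ∀ p, site x p → site y p

/-- `y` is obtained from `x` by changing contents of boxes -/
def Fam.Mod {A : Type} {l : ℕ} (F : Fam A l) (x y : ℤ → A) : Prop :=
  (∀ j, (∀ p, F.site x p → ¬ (p ≤ j ∧ j < p + l)) → y j = x j) ∧
    ∀ p, F.site x p → cont l y p ∈ F.Z

theorem Fam.Mod.site {A : Type} {l : ℕ} {F : Fam A l} {x y : ℤ → A} (h : F.Mod x y) {p : ℤ}
    (hp : F.site x p) : F.site y p := F.inv x y h.1 h.2 p hp

theorem Fam.disj' {A : Type} {l : ℕ} (F : Fam A l) {x : ℤ → A} {p q : ℤ} (hp : F.site x p)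
    (hq : F.site x q) (hne : p ≠ q) : p + l ≤ q ∨ q + l ≤ p := by
  rcases lt_or_gt_of_ne hne with h | h
  · exact Or.inl (F.disj x p q hp hq h)
  · exact Or.inr (F.disj x q p hq hp h)

theorem Fam.Mod.symm {A : Type} {l : ℕ} {F : Fam A l} {x y : ℤ → A} (h : F.Mod x y) :
    F.Mod y x := by
  refine ⟨fun j hj => (h.1 j fun p hp => hj p (h.site hp)).symm, fun p hp => ?_⟩
  by_cases hx : F.site x p
  · exact F.memZ x p hx
  · have : cont l x p = cont l y p := by
      apply cont_congr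
      intro i h0 h1
      refine (h.1 _ fun q hq hw => ?_).symm
      have hq' := h.site hq
      have hne : p ≠ q := by rintro rfl; exact hx hq
      rcases F.disj' hp hq' hne with h2 | h2 <;> omega
    rw [this]
    exact F.memZ y p hp

theorem Fam.Mod.site_iff {A : Type} {l : ℕ} {F : Fam A l} {x y : ℤ → A} (h : F.Mod x y) (p : ℤ) :
    F.site x p ↔ F.site y p := ⟨h.site, h.symm.site⟩

theorem Fam.Mod.refl {A : Type} {l : ℕ} (F : Fam A l) (x : ℤ → A) : F.Mod x x :=
  ⟨fun _ _ => rfl, fun p hp => F.memZ x p hp⟩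

theorem Fam.Mod.trans {A : Type} {l : ℕ} {F : Fam A l} {x y z : ℤ → A} (h : F.Mod x y)
    (h' : F.Mod y z) : F.Mod x z := by
  refine ⟨fun j hj => ?_, fun p hp => h'.2 p (h.site hp)⟩
  rw [h'.1 j fun p hp => hj p (h.symm.site hp), h.1 j hj]

/-- The group of control data. -/
def Fam.CtlG {A : Type} {l : ℕ} (F : Fam A l) : Subgroup (Upd A l) where
  carrier := {c | (∀ n x p, c (sh n x) p = c x (p + n)) ∧
    (∃ r : ℕ, ∀ (x y : ℤ → A) (p : ℤ), (∀ i : ℤ, p - r ≤ i → i ≤ p + r → x i = y i) →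
      c x p = c y p) ∧
    (∀ x p, ¬ F.site x p → c x p = 1) ∧
    (∀ x p z, c x p z ∈ F.Z ↔ z ∈ F.Z) ∧
    (∀ x y, F.Mod x y → c x = c y)}
  mul_mem' := by
    rintro c d ⟨h1, ⟨r, h2⟩, h3, h4, h5⟩ ⟨k1, ⟨s, k2⟩, k3, k4, k5⟩
    refine ⟨fun n x p => ?_, ⟨r + s, fun x y p h => ?_⟩, fun x p h => ?_, fun x p z => ?_,
      fun x y h => ?_⟩
    · simp only [Pi.mul_apply, h1, k1]
    · simp only [Pi.mul_apply]
      rw [h2 x y p (fun i hi hi' => h i (by push_cast; linarith) (by push_cast; linarith)),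
        k2 x y p (fun i hi hi' => h i (by push_cast; linarith) (by push_cast; linarith))]
    · simp only [Pi.mul_apply, h3 x p h, k3 x p h, mul_one]
    · simp only [Pi.mul_apply, Equiv.Perm.coe_mul, Function.comp_apply, h4, k4]
    · funext p
      simp only [Pi.mul_apply, h5 x y h, k5 x y h]
  one_mem' := ⟨fun _ _ _ => rfl, ⟨0, fun _ _ _ _ => rfl⟩, fun _ _ _ => rfl, fun _ _ _ => Iff.rfl,
    fun _ _ _ => rfl⟩
  inv_mem' := by
    rintro c ⟨h1, ⟨r, h2⟩, h3, h4, h5⟩
    refine ⟨fun n x p => ?_, ⟨r, fun x y p h => ?_⟩, fun x p h => ?_, fun x p z => ?_,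
      fun x y h => ?_⟩
    · simp only [Pi.inv_apply, h1]
    · simp only [Pi.inv_apply, h2 x y p h]
    · simp only [Pi.inv_apply, h3 x p h, inv_one]
    · simp only [Pi.inv_apply]
      rw [← h4 x p]
      simp
    · funext p
      simp only [Pi.inv_apply, h5 x y h]

section act

variable {A : Type} {l : ℕ} {F : Fam A l}

theorem move_ne {c : Upd A l} (hc : c ∈ F.CtlG) {x : ℤ → A} {p j : ℤ} (h : move c x p j ≠ x j) :
    F.site x p ∧ p ≤ j ∧ j < p + l := by
  constructor
  · by_contra hs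
    apply h
    rw [move_one]
    rw [hc.2.2.1 x p hs]; rfl
  · by_contra hs
    exact h (move_out hs)

theorem move_uniq {c : Upd A l} (hc : c ∈ F.CtlG) (x : ℤ → A) : Uniq x (move c x) := by
  intro p q j hp hq
  obtain ⟨h1, h2⟩ := move_ne hc hp
  obtain ⟨h3, h4⟩ := move_ne hc hq
  by_cases hpq : p = q
  · rw [hpq]
  · rcases F.disj' h1 h3 hpq with h | h <;> omega

theorem actf_in {c : Upd A l} (hc : c ∈ F.CtlG) {x : ℤ → A} {p j : ℤ} (hp : F.site x p)
    (hj : p ≤ j ∧ j < p + l) : actf c x j = move c x p j := by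
  by_cases h : move c x p j = x j
  · rw [h]
    apply amalg_not
    intro q
    by_contra hq
    obtain ⟨h3, h4⟩ := move_ne hc hq
    by_cases hpq : p = q
    · subst hpq; exact hq h
    · rcases F.disj' hp h3 hpq with h | h <;> omega
  · exact amalg_eq (move_uniq hc x) h

theorem actf_out {c : Upd A l} (hc : c ∈ F.CtlG) {x : ℤ → A} {j : ℤ}
    (h : ∀ p, F.site x p → c x p ≠ 1 → ¬ (p ≤ j ∧ j < p + l)) : actf c x j = x j := by
  apply amalg_not
  intro q
  by_contra hq
  obtain ⟨h3, h4⟩ := move_ne hc hq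
  refine h q h3 ?_ h4
  intro h1
  apply hq
  rw [move_one]
  rw [h1]; rfl

theorem cont_actf {c : Upd A l} (hc : c ∈ F.CtlG) {x : ℤ → A} {p : ℤ} (hp : F.site x p) :
    cont l (actf c x) p = c x p (cont l x p) := by
  rw [← cont_ovr x p (c x p (cont l x p))]
  apply cont_congr
  intro i h0 h1
  exact actf_in hc hp (by omega)

theorem actf_mod {c : Upd A l} (hc : c ∈ F.CtlG) (x : ℤ → A) : F.Mod x (actf c x) := by
  refine ⟨fun j hj => actf_out hc fun p hp _ => hj p hp, fun p hp => ?_⟩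
  rw [cont_actf hc hp, hc.2.2.2.1]
  exact F.memZ x p hp

theorem actf_comp {c d : Upd A l} (hc : c ∈ F.CtlG) (hd : d ∈ F.CtlG) (x : ℤ → A) :
    actf c (actf d x) = actf (c * d) x := by
  have hcd := F.CtlG.mul_mem hc hd
  have hm := actf_mod hd x
  funext j
  by_cases h : ∃ p, F.site x p ∧ p ≤ j ∧ j < p + l
  · obtain ⟨p, hp, hj⟩ := h
    obtain ⟨i, rfl⟩ := exists_fin hj
    have e1 := congrFun (cont_actf hc (hm.site hp)) i
    have e2 := congrFun (cont_actf hcd hp) i
    rw [cont_actf hd hp] at e1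
    rw [hc.2.2.2.2 _ _ hm.symm] at e1
    exact e1.trans e2.symm
  · push Not at h
    have h' : ∀ p, F.site x p → ¬ (p ≤ j ∧ j < p + l) := fun p hp hj => by
      have := h p hp hj.1; omega
    rw [actf_out hcd fun p hp _ => h' p hp,
      actf_out hc fun p hp _ => h' p (hm.symm.site hp), actf_out hd fun p hp _ => h' p hp]

theorem actf_one (x : ℤ → A) : actf (1 : Upd A l) x = x := by
  funext j
  apply amalg_not
  intro p
  rw [move_one]; rfl

theorem move_sh {c : Upd A l} (hc : c ∈ F.CtlG) (n : ℤ) (x : ℤ → A) (p : ℤ) :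
    move c (sh n x) p = sh n (move c x (p + n)) := by
  rw [move, hc.1, cont_sh, ovr_sh]; rfl

theorem actf_sh {c : Upd A l} (hc : c ∈ F.CtlG) (n : ℤ) (x : ℤ → A) :
    actf c (sh n x) = sh n (actf c x) := by
  funext j
  rw [sh_apply]
  by_cases h : ∃ p, F.site x p ∧ p ≤ j + n ∧ j + n < p + l
  · obtain ⟨p, hp, hj⟩ := h
    rw [actf_in hc hp hj, actf_in hc (p := p - n) ((F.site_sh x n _).2 (by simpa using hp))
      (by omega), move_sh hc]
    simp
  · push Not at h
    rw [actf_out hc, actf_out hc, sh_apply]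
    · intro p hp _ hj
      have := h p hp hj.1; omega
    · intro p hp _ hj
      have := h (p + n) ((F.site_sh x n _).1 hp) (by omega); omega

theorem actf_local {c : Upd A l} (hc : c ∈ F.CtlG) : LocalMap (actf c) := by
  obtain ⟨r, hr⟩ := hc.2.1
  obtain ⟨s, hs⟩ := F.site_loc
  refine ⟨r + s + l, fun x y n h => ?_⟩
  push_cast at h
  by_cases hx : ∃ p, F.site x p ∧ p ≤ n ∧ n < p + l
  · obtain ⟨p, hp, hj⟩ := hx
    have hp' : F.site y p := hs x y p (fun i h1 h2 => h i (by omega) (by omega)) hp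
    obtain ⟨i, rfl⟩ := exists_fin hj
    have e1 := congrFun (cont_actf hc hp) i
    have e2 := congrFun (cont_actf hc hp') i
    have e3 : cont l x p = cont l y p := by
      apply cont_congr
      intro k h0 h1
      exact h _ (by omega) (by omega)
    rw [hr x y p (fun k h1 h2 => h k (by omega) (by omega)), e3] at e1
    exact e1.trans e2.symm
  · push Not at hx
    rw [actf_out hc, actf_out hc, h n (by omega) (by omega)]
    · intro p hp _ hj
      have := hx p (hs y x p (fun i h1 h2 => (h i (by omega) (by omega)).symm) hp) hj.1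
      omega
    · intro p hp _ hj
      have := hx p hp hj.1; omega

/-- the homomorphism from control data to automorphisms -/
noncomputable def Fam.act (F : Fam A l) : F.CtlG →* AutG A where
  toFun c := ⟨
    { toFun := actf c.1
      invFun := actf (c.1)⁻¹
      left_inv := fun x => by
        rw [actf_comp (F.CtlG.inv_mem c.2) c.2, inv_mul_cancel, actf_one]
      right_inv := fun x => by
        rw [actf_comp c.2 (F.CtlG.inv_mem c.2), mul_inv_cancel, actf_one] },
    fun n x => actf_sh c.2 n x, actf_local c.2, actf_local (F.CtlG.inv_mem c.2)⟩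
  map_one' := AutG.ext' fun x => actf_one x
  map_mul' c d := AutG.ext' fun x => (actf_comp c.2 d.2 x).symm

@[simp] theorem Fam.act_apply (F : Fam A l) (c : F.CtlG) (x : ℤ → A) :
    (F.act c).1 x = actf c.1 x := rfl

end act

end Pool.Agent.TH27.FS
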