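import Pool.Agent.TH27.FS.Ctl

/-!
# Marker systems, gap boxes and marked boxes
-/

set_option autoImplicit false

namespace Pool.Agent.TH27.FS

open Equiv

/-- A system of five mutually non-overlapping markers of the same length. Contents will avoid
the `bad` letters, and every marker has a bad letter. -/
structure MS (A : Type) where
  μ : ℕ
  hμ : 0 < μ
  wd : Fin 5 → ℤ → A
  bad : A → Prop
  no : ∀ (a b : Fin 5) (s : ℤ), 0 < s → s < μ → ∃ i : ℤ, 0 ≤ i ∧ i + s < μ ∧
    wd a (i + s) ≠ wd b i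
  ne : ∀ a b : Fin 5, a ≠ b → ∃ i : ℤ, 0 ≤ i ∧ i < μ ∧ wd a i ≠ wd b i
  hbad : ∀ a : Fin 5, ∃ i : ℤ, 0 ≤ i ∧ i < μ ∧ bad (wd a i)
  o : A
  e : A
  ho : ¬ bad o
  he : ¬ bad e
  hoe : o ≠ e

variable {A : Type}

/-- the marker `a` occurs at `p` -/
def MS.occ (S : MS A) (a : Fin 5) (x : ℤ → A) (p : ℤ) : Prop :=
  ∀ i : ℤ, 0 ≤ i → i < S.μ → x (p + i) = S.wd a i

theorem MS.occ_sh (S : MS A) (a : Fin 5) (x : ℤ → A) (n p : ℤ) :
    S.occ a (sh n x) p ↔ S.occ a x (p + n) := by
  unfold MS.occ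
  refine forall_congr' fun i => ?_
  rw [sh_apply, show p + i + n = p + n + i by ring]

theorem MS.occ_congr {S : MS A} {a : Fin 5} {x y : ℤ → A} {p q : ℤ}
    (h : ∀ i : ℤ, 0 ≤ i → i < S.μ → x (p + i) = y (q + i)) : S.occ a x p ↔ S.occ a y q := by
  unfold MS.occ
  refine forall_congr' fun i => ?_
  constructor
  · intro h1 h2 h3; rw [← h i h2 h3]; exact h1 h2 h3
  · intro h1 h2 h3; rw [h i h2 h3]; exact h1 h2 h3

/-- same place version -/
theorem MS.occ_congr' {S : MS A} {a : Fin 5} {x y : ℤ → A} {p : ℤ}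
    (h : ∀ j : ℤ, p ≤ j → j < p + S.μ → x j = y j) : S.occ a x p ↔ S.occ a y p :=
  MS.occ_congr fun i h1 h2 => h _ (by omega) (by omega)

theorem MS.occ_no {S : MS A} {a b : Fin 5} {x : ℤ → A} {p q : ℤ} (h1 : S.occ a x p)
    (h2 : S.occ b x q) (h : p < q) : p + S.μ ≤ q := by
  by_contra hc
  obtain ⟨i, hi, hi', hne⟩ := S.no a b (q - p) (by omega) (by omega)
  apply hne
  rw [← h1 _ (by omega) hi', ← h2 i hi (by omega)]
  congr 1; ring

theorem MS.occ_inj {S : MS A} {a b : Fin 5} {x : ℤ → A} {p : ℤ} (h1 : S.occ a x p)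
    (h2 : S.occ b x p) : a = b := by
  by_contra hc
  obtain ⟨i, hi, hi', hne⟩ := S.ne a b hc
  exact hne ((h1 i hi hi').symm.trans (h2 i hi hi'))

/-- If the content at `[p, p+n)` has no bad letter and has markers on both sides, no marker
meets it. -/
theorem MS.occ_clean {S : MS A} {a b c : Fin 5} {n : ℕ} {x : ℤ → A} {p q : ℤ}
    (h1 : S.occ a x (p - S.μ)) (h2 : S.occ b x (p + n))
    (hz : ∀ i, ¬ S.bad (cont n x p i)) (h : S.occ c x q) (hq : p - S.μ < q) : p + n ≤ q := by
  by_contra hc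
  have e1 := MS.occ_no h1 h hq
  have e2 := MS.occ_no h h2 (by omega)
  obtain ⟨i, hi, hi', hb⟩ := S.hbad c
  rw [← h i hi hi'] at hb
  obtain ⟨k, hk⟩ := exists_fin (l := n) (p := p) (j := q + i) (by omega)
  apply hz k
  rw [cont, ← hk]
  exact hb

/-- gap boxes: marker `w`, then `l` letters, then the context `ρ`, no further `w` starts
before the end of the content -/
def MS.siteA (S : MS A) (w : Fin 5) (l : ℕ) (ρ : Fin S.μ → A) (x : ℤ → A) (p : ℤ) : Prop :=
  S.occ w x (p - S.μ) ∧ (∀ q : ℤ, p - S.μ < q → q < p + l → ¬ S.occ w x q) ∧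
    cont S.μ x (p + l) = ρ

/-- the family of gap boxes -/
def MS.FA (S : MS A) (w : Fin 5) (l : ℕ) (ρ : Fin S.μ → A) : Fam A l where
  site := S.siteA w l ρ
  Z := {c | ∃ x p, S.siteA w l ρ x p ∧ cont l x p = c}
  site_sh x n p := by
    unfold MS.siteA
    rw [MS.occ_sh, cont_sh, show p - S.μ + n = p + n - S.μ by ring,
      show p + l + n = p + n + l by ring]
    refine and_congr Iff.rfl (and_congr ?_ Iff.rfl)
    constructor
    · intro h q h1 h2 h3
      exact h (q - n) (by omega) (by omega) ((S.occ_sh w x n _).2 (by simpa using h3))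
    · intro h q h1 h2 h3
      exact h (q + n) (by omega) (by omega) ((S.occ_sh w x n _).1 h3)
  site_loc := by
    refine ⟨S.μ + l + S.μ, fun x y p h hs => ?_⟩
    push_cast at h
    obtain ⟨h1, h2, h3⟩ := hs
    refine ⟨(MS.occ_congr' fun j h4 h5 => h j (by omega) (by omega)).1 h1, ?_, ?_⟩
    · intro q h4 h5 h6
      exact h2 q h4 h5 ((MS.occ_congr' fun j h7 h8 => h j (by omega) (by omega)).2 h6)
    · rw [← h3]
      exact cont_congr fun i h4 h5 => (h _ (by omega) (by omega)).symm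
  memZ x p h := ⟨x, p, h, rfl⟩
  disj x p q hp hq h := by
    by_contra hc
    exact hp.2.1 (q - S.μ) (by omega) (by omega) hq.1
  inv x y h1 h2 p hp := by
    have hd : ∀ q, S.siteA w l ρ x q → q ≠ p → p + l + S.μ ≤ q ∨ q + l + S.μ ≤ p := by
      intro q hq hne
      rcases lt_or_gt_of_ne hne with h | h
      · right
        by_contra hc
        exact hq.2.1 (p - S.μ) (by omega) (by omega) hp.1
      · left
        by_contra hc
        exact hp.2.1 (q - S.μ) (by omega) (by omega) hq.1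
    have hl : ∀ j, p - S.μ ≤ j → j < p → y j = x j := by
      intro j h3 h4
      apply h1
      intro q hq hj
      by_cases hne : q = p
      · omega
      · rcases hd q hq hne with h | h <;> omega
    have hr : ∀ j, p + l ≤ j → j < p + l + S.μ → y j = x j := by
      intro j h3 h4
      apply h1
      intro q hq hj
      by_cases hne : q = p
      · omega
      · rcases hd q hq hne with h | h <;> omega
    obtain ⟨x', p', hs', hc'⟩ := h2 p hp
    have hρ : cont S.μ y (p + l) = ρ := by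
      rw [← hp.2.2]
      exact cont_congr fun i h3 h4 => hr _ (by omega) (by omega)
    have hω : S.occ w y (p - S.μ) :=
      (MS.occ_congr' fun j h3 h4 => hl j h3 (by omega)).2 hp.1
    have hall : ∀ i : ℤ, -S.μ ≤ i → i < l + S.μ → y (p + i) = x' (p' + i) := by
      intro i h3 h4
      by_cases h5 : i < 0
      · have e1 := hω (i + S.μ) (by omega) (by omega)
        have e2 := hs'.1 (i + S.μ) (by omega) (by omega)
        rw [show p - S.μ + (i + S.μ) = p + i by ring] at e1
        rw [show p' - S.μ + (i + S.μ) = p' + i by ring] at e2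
        rw [e1, e2]
      by_cases h6 : i < l
      · exact (cont_eq_iff.1 hc' i (by omega) h6).symm
      · have e1 := cont_eq_iff.1 (hρ.trans hs'.2.2.symm) (i - l) (by omega) (by omega)
        rwa [show p + l + (i - l) = p + i by ring, show p' + l + (i - l) = p' + i by ring] at e1
    refine ⟨hω, fun q h3 h4 h5 => ?_, hρ⟩
    refine hs'.2.1 (q - p + p') (by omega) (by omega) ((MS.occ_congr fun i h6 h7 => ?_).1 h5)
    have := hall (q - p + i) (by omega) (by omega)
    rwa [show p + (q - p + i) = q + i by ring,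
      show p' + (q - p + i) = q - p + p' + i by ring] at this

/-- Data of marked boxes: distinct markers `M, u, v, w` and the content length `n`. -/
structure TB (A : Type) where
  S : MS A
  M : Fin 5
  u : Fin 5
  v : Fin 5
  w : Fin 5
  hMu : M ≠ u
  hMv : M ≠ v
  hMw : M ≠ w
  huv : u ≠ v
  huw : u ≠ w
  hvw : v ≠ w
  hu4 : u ≠ 4
  hv4 : v ≠ 4
  n : ℕ
  Z : Set (Fin n → A)
  hZ : ∀ z ∈ Z, ∀ i, ¬ S.bad (z i)

/-- the period -/
def TB.d (T : TB A) : ℤ := T.n + 3 * T.S.μ

theorem TB.d_pos (T : TB A) : 0 < T.d := by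
  have := T.S.hμ
  unfold TB.d; omega

/-- marked boxes `M u z v M` (`z` the content, starting at `p`) -/
def TB.site (T : TB A) (x : ℤ → A) (p : ℤ) : Prop :=
  T.S.occ T.M x (p - 2 * T.S.μ) ∧ T.S.occ T.u x (p - T.S.μ) ∧ cont T.n x p ∈ T.Z ∧
    T.S.occ T.v x (p + T.n) ∧ T.S.occ T.M x (p + T.n + T.S.μ)

/-- the marker structure of a marked box -/
theorem TB.site_occ {T : TB A} {x : ℤ → A} {p q : ℤ} {a : Fin 5} (h : T.site x p)
    (ha : T.S.occ a x q) (h1 : p - 3 * T.S.μ < q) (h2 : q < p + T.n + 2 * T.S.μ) :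
    (q = p - 2 * T.S.μ ∧ a = T.M) ∨ (q = p - T.S.μ ∧ a = T.u) ∨ (q = p + T.n ∧ a = T.v) ∨
      (q = p + T.n + T.S.μ ∧ a = T.M) := by
  obtain ⟨k1, k2, k3, k4, k5⟩ := h
  have hμ := T.S.hμ
  by_cases e1 : q < p - 2 * T.S.μ
  · have := MS.occ_no ha k1 e1; omega
  by_cases e2 : q = p - 2 * T.S.μ
  · subst e2; exact Or.inl ⟨rfl, MS.occ_inj ha k1⟩
  have e3 := MS.occ_no k1 ha (by omega)
  by_cases e4 : q = p - T.S.μ
  · subst e4; exact Or.inr (Or.inl ⟨rfl, MS.occ_inj ha k2⟩)
  have e5 := MS.occ_clean k2 k4 (T.hZ _ k3) ha (by omega)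
  by_cases e6 : q = p + T.n
  · subst e6; exact Or.inr (Or.inr (Or.inl ⟨rfl, MS.occ_inj ha k4⟩))
  have e7 := MS.occ_no k4 ha (by omega)
  by_cases e8 : q = p + T.n + T.S.μ
  · subst e8; exact Or.inr (Or.inr (Or.inr ⟨rfl, MS.occ_inj ha k5⟩))
  have e9 := MS.occ_no k5 ha (by omega)
  omega

theorem TB.site_dist {T : TB A} {x : ℤ → A} {p q : ℤ} (hp : T.site x p) (hq : T.site x q)
    (h : p < q) : p + T.d ≤ q := by
  by_contra hc
  unfold TB.d at hc
  have hμ := T.S.hμ
  have h1 := hq.1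
  have h2 := hq.2.1
  rcases TB.site_occ hp h1 (by omega) (by omega) with h | h | h | h
  · omega
  · exact T.hMu h.2
  · exact T.hMv h.2
  · omega

/-- The family of marked boxes. -/
def TB.F (T : TB A) : Fam A T.n where
  site := T.site
  Z := T.Z
  site_sh x n p := by
    unfold TB.site
    simp only [MS.occ_sh, cont_sh]
    rw [show p - 2 * T.S.μ + n = p + n - 2 * T.S.μ by ring,
      show p - T.S.μ + n = p + n - T.S.μ by ring, show p + T.n + n = p + n + T.n by ring,
      show p + T.n + T.S.μ + n = p + n + T.n + T.S.μ by ring]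
  site_loc := by
    refine ⟨T.n + 2 * T.S.μ, fun x y p h hs => ?_⟩
    push_cast at h
    obtain ⟨h1, h2, h3, h4, h5⟩ := hs
    refine ⟨(MS.occ_congr' fun j h4 h5 => h j (by omega) (by omega)).1 h1,
      (MS.occ_congr' fun j h4 h5 => h j (by omega) (by omega)).1 h2, ?_,
      (MS.occ_congr' fun j h4 h5 => h j (by omega) (by omega)).1 h4,
      (MS.occ_congr' fun j h4 h5 => h j (by omega) (by omega)).1 h5⟩
    rwa [cont_congr fun i h4 h5 => (h _ (by omega) (by omega)).symm]
  memZ x p h := h.2.2.1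
  disj x p q hp hq h := by
    have := TB.site_dist hp hq h
    unfold TB.d at this; omega
  inv x y h1 h2 p hp := by
    have hμ := T.S.hμ
    have hd : ∀ q, T.site x q → q ≠ p → p + T.d ≤ q ∨ q + T.d ≤ p := by
      intro q hq hne
      rcases lt_or_gt_of_ne hne with h | h
      · exact Or.inr (TB.site_dist hq hp h)
      · exact Or.inl (TB.site_dist hp hq h)
    unfold TB.d at hd
    have hl : ∀ j, p - 2 * T.S.μ ≤ j → j < p → y j = x j := by
      intro j h3 h4
      apply h1
      intro q hq hj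
      by_cases hne : q = p
      · omega
      · rcases hd q hq hne with h | h <;> omega
    have hr : ∀ j, p + T.n ≤ j → j < p + T.n + 2 * T.S.μ → y j = x j := by
      intro j h3 h4
      apply h1
      intro q hq hj
      by_cases hne : q = p
      · omega
      · rcases hd q hq hne with h | h <;> omega
    obtain ⟨k1, k2, k3, k4, k5⟩ := hp
    exact ⟨(MS.occ_congr' fun j h3 h4 => hl j (by omega) (by omega)).2 k1,
      (MS.occ_congr' fun j h3 h4 => hl j (by omega) (by omega)).2 k2, h2 p ⟨k1, k2, k3, k4, k5⟩,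
      (MS.occ_congr' fun j h3 h4 => hr j (by omega) (by omega)).2 k4,
      (MS.occ_congr' fun j h3 h4 => hr j (by omega) (by omega)).2 k5⟩

end Pool.Agent.TH27.FS
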