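import Pool.Agent.TH27.FS.El
import Pool.Agent.TH554.J683
import Pool.Agent.TH286.FS.K6
import Pool.Agent.TH286.FS.K7
import Pool.Agent.TH142.FS.K8
import Pool.Agent.TH142.FS.K4

/-!
# The commutation theorem
-/

set_option autoImplicit false

namespace Pool.Agent.TH27.FS

open Equiv

variable {A : Type}

theorem TB.five_of_card (T : TB A) (s : Finset (Fin T.n → A)) (hs : 5 ≤ s.card)
    (h : ∀ z ∈ s, z ∈ T.Z) : T.Five := by
  classical
  intro a b c ha hb hc habc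
  have h3 : ({a, b, c} : Finset (Fin T.n → A)).card ≤ 3 := Finset.card_le_three
  have h4 : 1 < (s \ {a, b, c}).card := by
    have := Finset.le_card_sdiff ({a, b, c} : Finset (Fin T.n → A)) s
    omega
  obtain ⟨d, hd, e, he, hde⟩ := Finset.one_lt_card.1 h4
  simp only [Finset.mem_sdiff, Finset.mem_insert, Finset.mem_singleton, not_or] at hd he
  refine ⟨d, h d hd.1, e, h e he.1, ⟨Ne.symm hd.2.1, Ne.symm he.2.1, hde⟩,
    ⟨Ne.symm hd.2.2.1, Ne.symm he.2.2.1, hde⟩, ⟨Ne.symm hd.2.2.2, Ne.symm he.2.2.2, hde⟩⟩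

theorem rel_card {α : Type} [DecidableEq α] (s t : Finset α) (Rel : α → α → Prop)
    [DecidablePred fun w => ∃ z ∈ t, Rel w z]
    (hinj : ∀ w ∈ s, ∀ w' ∈ s, ∀ z ∈ t, Rel w z → Rel w' z → w = w') :
    (s.filter (fun w => ∃ z ∈ t, Rel w z)).card ≤ t.card := by
  classical
  have hf : ∀ w, ∃ z, (w ∈ s.filter (fun w => ∃ z ∈ t, Rel w z)) → z ∈ t ∧ Rel w z := by
    intro w
    by_cases hw : w ∈ s.filter (fun w => ∃ z ∈ t, Rel w z)
    · obtain ⟨z, hz⟩ := (Finset.mem_filter.1 hw).2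
      exact ⟨z, fun _ => hz⟩
    · exact ⟨w, fun h => absurd h hw⟩
  choose f hf using hf
  refine Finset.card_le_card_of_injOn f (fun w hw => (hf w hw).1) ?_
  intro w hw w' hw' hww
  have h1 := hf w hw
  have h2 := hf w' hw'
  rw [← hww] at h2
  exact hinj w (Finset.mem_filter.1 hw).1 w' (Finset.mem_filter.1 hw').1 _ h1.1 h1.2 h2.2

/-- The relation: the periodic point of `w` is mapped to the orbit of the periodic point of `z` -/
def TB.Rel (T : TB A) (g : AutG A) (w z : Fin T.n → A) : Prop :=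
  ∃ j : ℤ, g.1 (T.py w) = sh j (T.py z)

theorem TB.sh_inj (T : TB A) {z z' : Fin T.n → A} (hz : z ∈ T.Z) (hz' : z' ∈ T.Z) {j j' : ℤ}
    (h : sh j (T.py z) = sh j' (T.py z')) : z = z' := by
  apply T.orb_inj hz hz'
  apply Quotient.sound
  refine ⟨j - j', ?_⟩
  change T.py z' = sh (j - j') (T.py z)
  have : T.py z' = sh (-j') (sh j' (T.py z')) := by rw [sh_sh]; simp
  rw [this, ← h, sh_sh]
  congr 1; ring

theorem TB.Rel.fst {T : TB A} {g : AutG A} {w z z' : Fin T.n → A} (hz : z ∈ T.Z)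
    (hz' : z' ∈ T.Z) (h : T.Rel g w z) (h' : T.Rel g w z') : z = z' := by
  obtain ⟨j, hj⟩ := h
  obtain ⟨j', hj'⟩ := h'
  exact T.sh_inj hz hz' (hj.symm.trans hj')

theorem TB.Rel.snd {T : TB A} {g : AutG A} {w w' z : Fin T.n → A} (hw : w ∈ T.Z)
    (hw' : w' ∈ T.Z) (h : T.Rel g w z) (h' : T.Rel g w' z) : w = w' := by
  obtain ⟨j, hj⟩ := h
  obtain ⟨j', hj'⟩ := h'
  apply T.sh_inj hw hw' (j := -j) (j' := -j')
  apply g.1.injective
  rw [AutG.comm, AutG.comm, hj, hj', sh_sh, sh_sh]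
  simp

/-- splitting off the non-deep part -/
theorem TB.el_deep (T : TB A) {N : Subgroup (AutG A)} (hD : T.Deep N) (R : ℕ)
    {a b c : Fin T.n → A} (ha : a ∈ T.Z) (hb : b ∈ T.Z) (hc : c ∈ T.Z) (habc : D3 a b c) :
    (T.F.el (T.good_D R) (Fam.ok_tc ha hb hc))⁻¹ * T.g ha hb hc ∈ N := by
  rw [TB.g_eq_el, Fam.el_split (T.good_D R), ← mul_assoc, inv_mul_cancel, one_mul]
  exact Fam.el_mem.2 (hD R a b c ha hb hc habc)

/-- The commutation theorem -/
theorem TB.comm_main (T : TB A) {N : Subgroup (AutG A)} [N.Normal]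
    (hdeep : ∀ (Z' : Set (Fin T.n → A)) (h : Z' ⊆ T.Z), (T.sub Z' h).Five →
      (T.sub Z' h).Deep N)
    (S₀ : Finset (Fin T.n → A)) (hS₀ : ∀ z ∈ S₀, z ∈ T.Z) (hcard : 14 ≤ S₀.card)
    {a b c : Fin T.n → A} (ha : a ∈ T.Z) (hb : b ∈ T.Z) (hc : c ∈ T.Z) (habc : D3 a b c)
    (g : AutG A)
    (hg : ∀ w z, (w = a ∨ w = b ∨ w = c) → (z = a ∨ z = b ∨ z = c) → ¬ T.Rel g w z) :
    (g * T.g ha hb hc * g⁻¹) * T.g ha hb hc * (g * T.g ha hb hc * g⁻¹)⁻¹ * (T.g ha hb hc)⁻¹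
      ∈ N := by
  classical
  -- the choice of contents
  set E : Finset (Fin T.n → A) := {a, b, c} with hE
  have hEc : E.card ≤ 3 := Finset.card_le_three
  have hEZ : ∀ z ∈ E, z ∈ T.Z := by
    intro z hz
    simp only [hE, Finset.mem_insert, Finset.mem_singleton] at hz
    rcases hz with rfl | rfl | rfl <;> assumption
  obtain ⟨Q, hQ, hQ2⟩ : ∃ Q ⊆ (S₀ \ E) \ ((S₀ \ E).filter (fun w => ∃ z ∈ E, T.Rel g w z)),
      Q.card = 2 := by
    apply Finset.exists_subset_card_eq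
    have h1 := Finset.le_card_sdiff E S₀
    have h2 := Finset.le_card_sdiff ((S₀ \ E).filter (fun w => ∃ z ∈ E, T.Rel g w z)) (S₀ \ E)
    have h3 := rel_card (S₀ \ E) E (T.Rel g) (fun w hw w' hw' z _ h h' =>
      h.snd (hS₀ w (Finset.mem_sdiff.1 hw).1) (hS₀ w' (Finset.mem_sdiff.1 hw').1) h')
    omega
  have hQZ : ∀ z ∈ Q, z ∈ T.Z := fun z hz =>
    hS₀ z (Finset.mem_sdiff.1 (Finset.mem_sdiff.1 (hQ hz)).1).1
  have hQE : Disjoint Q E := by
    rw [Finset.disjoint_left]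
    intro z hz
    exact (Finset.mem_sdiff.1 (Finset.mem_sdiff.1 (hQ hz)).1).2
  have hQR : ∀ w ∈ Q, ∀ z ∈ E, ¬ T.Rel g w z := by
    intro w hw z hz h
    exact (Finset.mem_sdiff.1 (hQ hw)).2
      (Finset.mem_filter.2 ⟨(Finset.mem_sdiff.1 (hQ hw)).1, z, hz, h⟩)
  have hE3 : E.card = 3 := Finset.card_eq_three.2 ⟨a, b, c, habc.1, habc.2.1, habc.2.2, rfl⟩
  set Zp : Finset (Fin T.n → A) := E ∪ Q with hZp
  have hZpc : Zp.card = 5 := by
    rw [hZp, Finset.card_union_of_disjoint hQE.symm, hE3, hQ2]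
  have hZpZ : ∀ z ∈ Zp, z ∈ T.Z := by
    intro z hz
    rcases Finset.mem_union.1 hz with h | h
    · exact hEZ z h
    · exact hQZ z h
  obtain ⟨P, hP, hP6⟩ : ∃ P ⊆ (S₀ \ E) \ ((S₀ \ E).filter (fun z => ∃ w ∈ Zp, T.Rel g w z)),
      P.card = 6 := by
    apply Finset.exists_subset_card_eq
    have h1 := Finset.le_card_sdiff E S₀
    have h2 := Finset.le_card_sdiff ((S₀ \ E).filter (fun z => ∃ w ∈ Zp, T.Rel g w z)) (S₀ \ E)
    have h3 := rel_card (S₀ \ E) Zp (fun z w => T.Rel g w z) (fun z hz z' hz' w _ h h' =>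
      h.fst (hS₀ z (Finset.mem_sdiff.1 hz).1) (hS₀ z' (Finset.mem_sdiff.1 hz').1) h')
    omega
  have hPZ : ∀ z ∈ P, z ∈ T.Z := fun z hz =>
    hS₀ z (Finset.mem_sdiff.1 (Finset.mem_sdiff.1 (hP hz)).1).1
  have hPE : ∀ z ∈ P, z ∉ E := fun z hz => (Finset.mem_sdiff.1 (Finset.mem_sdiff.1 (hP hz)).1).2
  have hPR : ∀ w ∈ Zp, ∀ z ∈ P, ¬ T.Rel g w z := by
    intro w hw z hz h
    exact (Finset.mem_sdiff.1 (hP hz)).2
      (Finset.mem_filter.2 ⟨(Finset.mem_sdiff.1 (hP hz)).1, w, hw, h⟩)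
  obtain ⟨P1, hP1, hP1c⟩ : ∃ P1 ⊆ P, P1.card = 3 :=
    Finset.exists_subset_card_eq (by omega)
  set P2 : Finset (Fin T.n → A) := P \ P1 with hP2
  have hP2c : P2.card = 3 := by
    rw [hP2, Finset.card_sdiff_of_subset hP1]; omega
  have hP2P : P2 ⊆ P := Finset.sdiff_subset
  have haE : a ∈ E := by simp [hE]
  have hbE : b ∈ E := by simp [hE]
  have hcE : c ∈ E := by simp [hE]
  set Zh : Finset (Fin T.n → A) := insert a (insert b P1) with hZh
  set Zv : Finset (Fin T.n → A) := insert a (insert c P2) with hZv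
  have hZhc : Zh.card = 5 := by
    rw [hZh, Finset.card_insert_of_notMem, Finset.card_insert_of_notMem, hP1c]
    · exact fun h => hPE b (hP1 h) hbE
    · intro h
      rcases Finset.mem_insert.1 h with h | h
      · exact habc.1 h
      · exact hPE a (hP1 h) haE
  have hZvc : Zv.card = 5 := by
    rw [hZv, Finset.card_insert_of_notMem, Finset.card_insert_of_notMem, hP2c]
    · exact fun h => hPE c (hP2P h) hcE
    · intro h
      rcases Finset.mem_insert.1 h with h | h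
      · exact habc.2.1 h
      · exact hPE a (hP2P h) haE
  have hZhZ : ∀ z ∈ Zh, z ∈ T.Z := by
    intro z hz
    rcases Finset.mem_insert.1 hz with rfl | hz
    · exact ha
    rcases Finset.mem_insert.1 hz with rfl | hz
    · exact hb
    · exact hPZ z (hP1 hz)
  have hZvZ : ∀ z ∈ Zv, z ∈ T.Z := by
    intro z hz
    rcases Finset.mem_insert.1 hz with rfl | hz
    · exact ha
    rcases Finset.mem_insert.1 hz with rfl | hz
    · exact hc
    · exact hPZ z (hP2P hz)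
  have hint : ∀ z, z ∈ Zh → z ∈ Zv → z = a := by
    intro z h1 h2
    by_contra hne
    rcases Finset.mem_insert.1 h1 with rfl | h1
    · exact hne rfl
    rcases Finset.mem_insert.1 h2 with rfl | h2
    · exact hne rfl
    rcases Finset.mem_insert.1 h1 with rfl | h1
    · rcases Finset.mem_insert.1 h2 with h2 | h2
      · exact habc.2.2 h2
      · exact hPE _ (hP2P h2) hbE
    · rcases Finset.mem_insert.1 h2 with rfl | h2
      · exact hPE _ (hP1 h1) hcE
      · exact (Finset.mem_sdiff.1 h2).2 h1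
  -- no long runs
  have hall : ∀ w ∈ (Zp : Set (Fin T.n → A)), ∀ z ∈ ((Zh ∪ Zv : Finset _) : Set (Fin T.n → A)),
      ∀ j : ℤ, g.1 (T.py w) ≠ sh j (T.py z) := by
    intro w hw z hz j hj
    rw [Finset.mem_coe] at hw hz
    have hR : T.Rel g w z := ⟨j, hj⟩
    have hz' : z ∈ E ∨ z ∈ P := by
      rcases Finset.mem_union.1 hz with hz | hz
      · rcases Finset.mem_insert.1 hz with rfl | hz
        · exact Or.inl haE
        rcases Finset.mem_insert.1 hz with rfl | hz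
        · exact Or.inl hbE
        · exact Or.inr (hP1 hz)
      · rcases Finset.mem_insert.1 hz with rfl | hz
        · exact Or.inl haE
        rcases Finset.mem_insert.1 hz with rfl | hz
        · exact Or.inl hcE
        · exact Or.inr (hP2P hz)
    rcases hz' with hz' | hz'
    · rcases Finset.mem_union.1 hw with hw' | hw'
      · simp only [hE, Finset.mem_insert, Finset.mem_singleton] at hw' hz'
        exact hg w z hw' hz' hR
      · exact hQR w hw' z hz' hR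
    · exact hPR w hw z hz' hR
  have hqZ : ((Zh ∪ Zv : Finset _) : Set (Fin T.n → A)) ⊆ T.Z := by
    intro z hz
    rcases Finset.mem_union.1 (Finset.mem_coe.1 hz) with hz | hz
    · exact hZhZ z hz
    · exact hZvZ z hz
  obtain ⟨R₂, hR₂, hruns⟩ := T.no_runs (Zp := (Zp : Set _)) (Zq := ((Zh ∪ Zv : Finset _) : Set _))
    (fun z hz => hZpZ z hz) hqZ T.py (fun z hz k => T.py_site hz k) g hall
  obtain ⟨p1, hp1⟩ : P1.Nonempty := Finset.card_pos.1 (by omega)
  obtain ⟨p2, hp2⟩ : P2.Nonempty := Finset.card_pos.1 (by omega)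
  have d1 : D3 a p1 p2 := by
    refine ⟨?_, ?_, ?_⟩
    · rintro rfl; exact hPE _ (hP1 hp1) haE
    · rintro rfl; exact hPE _ (hP2P hp2) haE
    · rintro rfl; exact (Finset.mem_sdiff.1 hp2).2 hp1
  have d2 : D3 b p1 p2 := by
    refine ⟨?_, ?_, d1.2.2⟩
    · rintro rfl; exact hPE _ (hP1 hp1) hbE
    · rintro rfl; exact hPE _ (hP2P hp2) hbE
  have d3 : D3 c p1 p2 := by
    refine ⟨?_, ?_, d1.2.2⟩
    · rintro rfl; exact hPE _ (hP1 hp1) hcE
    · rintro rfl; exact hPE _ (hP2P hp2) hcE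
  have dh : D3 a b p1 := ⟨habc.1, d1.1, d2.1⟩
  have dv : D3 a c p2 := ⟨habc.2.1, d1.2.1, d3.2.1⟩
  have dh' : D3 a p1 b := ⟨d1.1, habc.1, d2.1.symm⟩
  have dv' : D3 a p2 c := ⟨d1.2.1, habc.2.1, d3.2.1.symm⟩
  -- the three sub box systems
  have hpZ' : (Zp : Set (Fin T.n → A)) ⊆ T.Z := fun z hz => hZpZ z hz
  have hhZ' : (Zh : Set (Fin T.n → A)) ⊆ T.Z := fun z hz => hZhZ z hz
  have hvZ' : (Zv : Set (Fin T.n → A)) ⊆ T.Z := fun z hz => hZvZ z hz
  set Tp := T.sub (Zp : Set _) hpZ' with hTp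
  set Tq := T.sub ((Zh ∪ Zv : Finset _) : Set _) hqZ with hTq
  have hhq : (Zh : Set (Fin T.n → A)) ⊆ Tq.Z := fun z hz =>
    Finset.mem_coe.2 (Finset.mem_union_left _ hz)
  have hvq : (Zv : Set (Fin T.n → A)) ⊆ Tq.Z := fun z hz =>
    Finset.mem_coe.2 (Finset.mem_union_right _ hz)
  set Th := T.sub (Zh : Set _) hhZ' with hTh
  set Tv := T.sub (Zv : Set _) hvZ' with hTv
  have fp : Tp.Five := Tp.five_of_card Zp (by omega) (fun z hz => hz)
  have fh : Th.Five := Th.five_of_card Zh (by omega) (fun z hz => hz)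
  have fv : Tv.Five := Tv.five_of_card Zv (by omega) (fun z hz => hz)
  have Dp : Tp.Deep N := hdeep _ _ fp
  have Dh : Th.Deep N := hdeep _ _ fh
  have Dv : Tv.Deep N := hdeep _ _ fv
  have mah : a ∈ Th.Z := Finset.mem_coe.2 (Finset.mem_insert_self _ _)
  have mbh : b ∈ Th.Z :=
    Finset.mem_coe.2 (Finset.mem_insert_of_mem (Finset.mem_insert_self _ _))
  have mph : p1 ∈ Th.Z :=
    Finset.mem_coe.2 (Finset.mem_insert_of_mem (Finset.mem_insert_of_mem hp1))
  have mav : a ∈ Tv.Z := Finset.mem_coe.2 (Finset.mem_insert_self _ _)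
  have mcv : c ∈ Tv.Z :=
    Finset.mem_coe.2 (Finset.mem_insert_of_mem (Finset.mem_insert_self _ _))
  have mpv : p2 ∈ Tv.Z :=
    Finset.mem_coe.2 (Finset.mem_insert_of_mem (Finset.mem_insert_of_mem hp2))
  have map : a ∈ Tp.Z := Finset.mem_coe.2 (Finset.mem_union_left _ haE)
  have mbp : b ∈ Tp.Z := Finset.mem_coe.2 (Finset.mem_union_left _ hbE)
  have mcp : c ∈ Tp.Z := Finset.mem_coe.2 (Finset.mem_union_left _ hcE)
  set R : ℕ := 3 * R₂ with hR
  -- the elements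
  set H : AutG A := Th.F.el (Th.good_D R) (Fam.ok_tc mah mbh mph) with hH
  set V : AutG A := Tv.F.el (Tv.good_D R) (Fam.ok_tc mav mcv mpv) with hV
  set fH : AutG A := Th.g mah mbh mph with hfH
  set fV : AutG A := Tv.g mav mcv mpv with hfV
  set f : AutG A := T.g ha hb hc with hf
  have eH : H⁻¹ * fH ∈ N := Th.el_deep Dh R mah mbh mph dh
  have eV : V⁻¹ * fV ∈ N := Tv.el_deep Dv R mav mcv mpv dv
  -- f is a commutator
  have efH : fH = T.g ha hb (hZhZ p1 mph) := T.sub_g _ _ _ _ _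
  have efV : fV = T.g ha hc (hZvZ p2 mpv) := T.sub_g _ _ _ _ _
  have efP : Tp.g map mbp mcp = f := T.sub_g _ _ _ _ _
  have ef : fH * fV * fH⁻¹ * fV⁻¹ = f := by
    rw [efH, efV, hf, TB.g_eq_el, TB.g_eq_el, TB.g_eq_el, Fam.el_inv, Fam.el_inv, Fam.el_mul,
      Fam.el_mul, Fam.el_mul]
    unfold Fam.el
    congr 1
    apply Subtype.ext
    change T.F.ctl _ (tc a b p1 * tc a c p2 * (tc a b p1)⁻¹ * (tc a c p2)⁻¹) = T.F.ctl _ (tc a b c)
    rw [tc_comm habc d1 d2 d3]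
  -- the deep commutator fixes the images of concatenations
  set τ : AutG A := H * V * H⁻¹ * V⁻¹ with hτ
  have hτfix : ∀ s ∈ Tp.Sset, τ.1 (g.1 s) = g.1 s := by
    intro s hs
    have key := Tq.comm_of_no_runs (Zh := (Zh : Set _)) (Zv := (Zv : Set _)) hhq hvq
      (a := a) (b := p1) (c := p2) (d := b) (e := c)
      (fun z h1 h2 => hint z h1 h2) mah mav mph mbh mpv mcv dh' dv' hR₂ (le_of_eq hR.symm)
      (g.1 s) (by
        intro p z hz hrun
        apply hruns s hs p z hz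
        intro k hk1 hk2
        obtain ⟨h1, h2⟩ := hrun k hk1 hk2
        exact ⟨((T.sub_site _ _ _ _).1 h1).1, h2⟩)
    have e1 : ∀ y, (H⁻¹).1 y = actf ((Tq.sub (Zh : Set _) hhq).F.ctl
        ((Tq.sub (Zh : Set _) hhq).D R) (tc a p1 b)) y := by
      intro y
      rw [hH, Fam.el_inv, Fam.el_apply, tc_inv dh]
      have : tc p1 b a = tc a p1 b := (tc_rot dh').symm
      rw [this]
    have e2 : ∀ y, (V⁻¹).1 y = actf ((Tq.sub (Zv : Set _) hvq).F.ctl
        ((Tq.sub (Zv : Set _) hvq).D R) (tc a p2 c)) y := by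
      intro y
      rw [hV, Fam.el_inv, Fam.el_apply, tc_inv dv]
      have : tc p2 c a = tc a p2 c := (tc_rot dv').symm
      rw [this]
    rw [← e1, ← e2, ← e1, ← e2] at key
    rw [hτ]
    simp only [AutG.mul_apply]
    rw [key]
    simp
  have h1 := Tp.comm_of_fix fp Dp map mbp mcp ⟨habc.1, habc.2.1, habc.2.2⟩ (g⁻¹ * τ * g) (by
    intro s hs
    rw [AutG.mul_apply, AutG.mul_apply, hτfix s hs]
    simp)
  rw [efP] at h1
  -- work in the quotient
  have q0 : ∀ x : AutG A, x ∈ N ↔ (QuotientGroup.mk' N) x = 1 := fun x =>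
    (QuotientGroup.eq_one_iff x).symm
  set q := QuotientGroup.mk' N with hq
  have qH : q H = q fH := by
    have := (q0 _).1 eH
    rw [map_mul, map_inv] at this
    exact (inv_mul_eq_one.1 this)
  have qV : q V = q fV := by
    have := (q0 _).1 eV
    rw [map_mul, map_inv] at this
    exact (inv_mul_eq_one.1 this)
  have qτ : q τ = q f := by
    rw [hτ, ← ef]
    simp only [map_mul, map_inv, qH, qV]
  have h2 := (q0 _).1 h1
  rw [q0]
  simp only [map_mul, map_inv, mul_inv_rev, inv_inv, qτ] at h2 ⊢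
  have h3 : q g * (q f * ((q g)⁻¹ * q f * q g) * (q f)⁻¹ * ((q g)⁻¹ * ((q f)⁻¹ * q g))) *
      (q g)⁻¹ = 1 := by rw [h2]; simp
  rw [← h3]
  group

end Pool.Agent.TH27.FS
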