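import Pool.Agent.TH27.FS.Defs2

/-!
# Changing the window of a three cycle
-/

set_option autoImplicit false

namespace Pool.Agent.TH27.FS

open Equiv

variable {A : Type}

theorem tc_map {α β : Type} {E : α → β} (hE : Function.Injective E) {a b c : α} (h : D3 a b c)
    (z : α) : tc (E a) (E b) (E c) (E z) = E (tc a b c z) := by
  have h' : D3 (E a) (E b) (E c) := ⟨hE.ne h.1, hE.ne h.2.1, hE.ne h.2.2⟩
  by_cases h1 : z = a
  · subst h1; rw [tc_a h, tc_a h']
  by_cases h2 : z = b
  · subst h2; rw [tc_b h, tc_b h']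
  by_cases h3 : z = c
  · subst h3; rw [tc_c h, tc_c h']
  rw [tc_of_ne h1 h2 h3, tc_of_ne (hE.ne h1) (hE.ne h2) (hE.ne h3)]

/-- Embedding a short content into a longer one: the short one is at `[s, s+l)`, the other
letters are given by `y`. -/
def emb (l l' s : ℕ) (y : ℤ → A) (z : Fin l → A) : Fin l' → A := fun i =>
  if h : s ≤ i.1 ∧ i.1 < s + l then z ⟨i.1 - s, by omega⟩ else y i.1

theorem emb_in {l l' s : ℕ} {y : ℤ → A} {z : Fin l → A} (hl : s + l ≤ l') (i : Fin l) :
    emb l l' s y z ⟨s + i.1, by omega⟩ = z i := by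
  unfold emb
  rw [dif_pos ⟨by simp, by simp⟩]
  congr 1
  apply Fin.ext
  simp

theorem emb_out {l l' s : ℕ} {y : ℤ → A} {z : Fin l → A} {i : Fin l'}
    (h : ¬ (s ≤ i.1 ∧ i.1 < s + l)) : emb l l' s y z i = y i.1 := by
  unfold emb
  rw [dif_neg h]

theorem emb_inj {l l' s : ℕ} {y : ℤ → A} (hl : s + l ≤ l') :
    Function.Injective (emb l l' s y) := by
  intro z z' h
  funext i
  rw [← emb_in (z := z) (y := y) hl i, ← emb_in (z := z') (y := y) hl i, h]

/-- criterion: the content of the large window is an embedded one -/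
theorem cont_emb {l l' s : ℕ} {y : ℤ → A} {x : ℤ → A} {q : ℤ} {z : Fin l → A} (hl : s + l ≤ l')
    (h1 : cont l x (q + s) = z)
    (h2 : ∀ i : ℤ, 0 ≤ i → i < l' → ¬ (s ≤ i ∧ i < s + l) → x (q + i) = y i) :
    cont l' x q = emb l l' s y z := by
  subst h1
  funext i
  by_cases h : s ≤ i.1 ∧ i.1 < s + l
  · obtain ⟨k, hk⟩ : ∃ k : Fin l, i.1 = s + k.1 := ⟨⟨i.1 - s, by omega⟩, by simp; omega⟩
    have : i = ⟨s + k.1, by omega⟩ := Fin.ext hk
    rw [this, emb_in hl]
    simp only [cont]
    congr 1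
    push_cast; ring
  · rw [emb_out h]
    exact h2 i.1 (by positivity) (by exact_mod_cast i.2) (by exact_mod_cast h)

theorem emb_cont {l l' s : ℕ} {y : ℤ → A} {x : ℤ → A} {q : ℤ} {z : Fin l → A} (hl : s + l ≤ l')
    (h : cont l' x q = emb l l' s y z) :
    cont l x (q + s) = z ∧
      ∀ i : ℤ, 0 ≤ i → i < l' → ¬ (s ≤ i ∧ i < s + l) → x (q + i) = y i := by
  constructor
  · funext i
    have := congrFun h ⟨s + i.1, by omega⟩
    rw [emb_in hl] at this
    rw [← this]
    simp only [cont]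
    congr 1
    push_cast; ring
  · intro i h1 h2 h3
    have := congrFun h ⟨i.toNat, by omega⟩
    rw [emb_out (by simp only; omega)] at this
    simp only [cont, Int.toNat_of_nonneg h1] at this
    exact this

theorem ovr_emb {l l' s : ℕ} {y : ℤ → A} {x : ℤ → A} {q : ℤ} {z w : Fin l → A} (hl : s + l ≤ l')
    (h : cont l' x q = emb l l' s y z) : ovr l' x q (emb l l' s y w) = ovr l x (q + s) w := by
  obtain ⟨h1, h2⟩ := emb_cont hl h
  funext j
  by_cases hj : q ≤ j ∧ j < q + l'
  · obtain ⟨i, rfl⟩ := exists_fin hj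
    rw [ovr_in]
    by_cases hi : s ≤ i.1 ∧ i.1 < s + l
    · obtain ⟨k, hk⟩ : ∃ k : Fin l, i.1 = s + k.1 := ⟨⟨i.1 - s, by omega⟩, by simp; omega⟩
      have e1 : i = ⟨s + k.1, by omega⟩ := Fin.ext hk
      have e2 : q + ((i : ℕ) : ℤ) = q + s + ((k : ℕ) : ℤ) := by rw [hk]; push_cast; ring
      rw [e2, ovr_in, e1, emb_in hl]
    · rw [emb_out hi, ovr_out (by omega)]
      exact (h2 _ (by positivity) (by exact_mod_cast i.2) (by omega)).symm
  · rw [ovr_out hj, ovr_out (by omega)]

/-- The cross window lemma. -/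
theorem cross {l l' s : ℕ} {F : Fam A l} {F' : Fam A l'} {C C' : (ℤ → A) → ℤ → Prop}
    {y : ℤ → A} (hl : s + l ≤ l') {a b c : Fin l → A} (h : D3 a b c)
    (hC' : F'.Good C')
    (ha : emb l l' s y a ∈ F'.Z) (hb : emb l l' s y b ∈ F'.Z) (hc : emb l l' s y c ∈ F'.Z)
    (H1 : ∀ x p, F.site x p → C x p → (cont l x p = a ∨ cont l x p = b ∨ cont l x p = c) →
      F'.site x (p - s) ∧ C' x (p - s) ∧ cont l' x (p - s) = emb l l' s y (cont l x p))
    (H2 : ∀ x p, F'.site x (p - s) → C' x (p - s) →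
      cont l' x (p - s) = emb l l' s y (cont l x p) →
      (cont l x p = a ∨ cont l x p = b ∨ cont l x p = c) → F.site x p ∧ C x p) :
    actf (F.ctl C (tc a b c)) =
      actf (F'.ctl C' (tc (emb l l' s y a) (emb l l' s y b) (emb l l' s y c))) := by
  classical
  have m := Fam.ctl_mem hC' (Fam.ok_tc ha hb hc)
  have hE := emb_inj (A := A) (l := l) (l' := l') (s := s) (y := y) hl
  have h' : D3 (emb l l' s y a) (emb l l' s y b) (emb l l' s y c) :=
    ⟨hE.ne h.1, hE.ne h.2.1, hE.ne h.2.2⟩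
  funext x
  refine amalg_congr (move_uniq m x) (fun p => ?_) (fun q => ?_)
  · by_cases h1 : F.site x p ∧ C x p
    · by_cases h2 : cont l x p = a ∨ cont l x p = b ∨ cont l x p = c
      · right
        refine ⟨p - s, ?_⟩
        obtain ⟨k1, k2, k3⟩ := H1 x p h1.1 h1.2 h2
        rw [move, move, Fam.ctl, Fam.ctl, if_pos h1, if_pos ⟨k1, k2⟩]
        rw [k3, tc_map hE h, ovr_emb hl k3]
        simp
      · left
        push Not at h2
        apply move_one
        rw [Fam.ctl, if_pos h1]
        exact tc_of_ne h2.1 h2.2.1 h2.2.2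
    · left
      apply move_one
      rw [Fam.ctl, if_neg h1]; rfl
  · by_cases h1 : F'.site x q ∧ C' x q
    · by_cases h2 : cont l' x q = emb l l' s y a ∨ cont l' x q = emb l l' s y b ∨
        cont l' x q = emb l l' s y c
      · right
        refine ⟨q + s, ?_⟩
        have k3 : cont l' x q = emb l l' s y (cont l x (q + s)) ∧
            (cont l x (q + s) = a ∨ cont l x (q + s) = b ∨ cont l x (q + s) = c) := by
          rcases h2 with h2 | h2 | h2
          · have := (emb_cont hl h2).1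
            rw [this]; exact ⟨h2, Or.inl rfl⟩
          · have := (emb_cont hl h2).1
            rw [this]; exact ⟨h2, Or.inr (Or.inl rfl)⟩
          · have := (emb_cont hl h2).1
            rw [this]; exact ⟨h2, Or.inr (Or.inr rfl)⟩
        have k4 := H2 x (q + s) (by simpa using h1.1) (by simpa using h1.2)
          (by simpa using k3.1) k3.2
        rw [move, move, Fam.ctl, Fam.ctl, if_pos h1, if_pos k4]
        rw [k3.1, tc_map hE h, ovr_emb hl k3.1]
      · left
        push Not at h2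
        apply move_one
        rw [Fam.ctl, if_pos h1]
        exact tc_of_ne h2.1 h2.2.1 h2.2.2
    · left
      apply move_one
      rw [Fam.ctl, if_neg h1]; rfl

/-- changing one content of a site is a modification -/
theorem Fam.mod_ovr {l : ℕ} (F : Fam A l) {x : ℤ → A} {p : ℤ} (hp : F.site x p)
    {z : Fin l → A} (hz : z ∈ F.Z) : F.Mod x (ovr l x p z) := by
  refine ⟨fun j hj => ovr_out (hj p hp), fun q hq => ?_⟩
  by_cases h : q = p
  · subst h; rw [cont_ovr]; exact hz
  · have : cont l (ovr l x p z) q = cont l x q := by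
      apply cont_congr
      intro i h0 h1
      apply ovr_out
      rcases F.disj' hq hp h with h | h <;> omega
    rw [this]
    exact F.memZ x q hq

/-- The cross window lemma for membership in a normal subgroup. -/
theorem cross_InN {N : Subgroup (AutG A)} {l l' s : ℕ} {F : Fam A l} {F' : Fam A l'}
    {C C' : (ℤ → A) → ℤ → Prop} {y : ℤ → A} (hl : s + l ≤ l') {a b c : Fin l → A}
    (h : D3 a b c) (hC : F.Good C) (hC' : F'.Good C')
    (ha : a ∈ F.Z) (hb : b ∈ F.Z) (hc : c ∈ F.Z)
    (H1 : ∀ x p, F.site x p → C x p → (cont l x p = a ∨ cont l x p = b ∨ cont l x p = c) →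
      F'.site x (p - s) ∧ C' x (p - s) ∧ cont l' x (p - s) = emb l l' s y (cont l x p))
    (H2 : ∀ x p, F'.site x (p - s) → C' x (p - s) →
      cont l' x (p - s) = emb l l' s y (cont l x p) →
      (cont l x p = a ∨ cont l x p = b ∨ cont l x p = c) → F.site x p ∧ C x p)
    (hN : emb l l' s y a ∈ F'.Z → emb l l' s y b ∈ F'.Z → emb l l' s y c ∈ F'.Z →
      InN N (actf (F'.ctl C' (tc (emb l l' s y a) (emb l l' s y b) (emb l l' s y c))))) :
    InN N (actf (F.ctl C (tc a b c))) := by
  by_cases hex : ∃ x p, F.site x p ∧ C x p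
  · obtain ⟨x, p, h1, h2⟩ := hex
    have key : ∀ z ∈ F.Z, (z = a ∨ z = b ∨ z = c) → emb l l' s y z ∈ F'.Z := by
      intro z hz hz'
      have hm := F.mod_ovr h1 hz
      have hcz : cont l (ovr l x p z) p = z := cont_ovr x p z
      obtain ⟨k1, k2, k3⟩ := H1 _ p (hm.site h1) (hC.inv _ _ hm p h1 h2) (by rw [hcz]; exact hz')
      rw [hcz] at k3
      rw [← k3]
      exact F'.memZ _ _ k1
    have ka := key a ha (Or.inl rfl)
    have kb := key b hb (Or.inr (Or.inl rfl))
    have kc := key c hc (Or.inr (Or.inr rfl))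
    rw [cross hl h hC' ka kb kc H1 H2]
    exact hN ka kb kc
  · push Not at hex
    exact InN_empty N F hex _

end Pool.Agent.TH27.FS
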