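import Pool.Agent.TH27.FS.Act

/-!
# Controls, three cycles and normal subgroups
-/

set_option autoImplicit false

namespace Pool.Agent.TH27.FS

open Equiv

section tc

variable {α : Type}

open Classical in
/-- the three cycle `a ↦ b ↦ c ↦ a` -/
noncomputable def tc (a b c : α) : Perm α := swap a b * swap b c

/-- pairwise distinct triple -/
def D3 (a b c : α) : Prop := a ≠ b ∧ a ≠ c ∧ b ≠ c

theorem tc_a {a b c : α} (h : D3 a b c) : tc a b c a = b := by
  classical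
  obtain ⟨h1, h2, h3⟩ := h
  simp only [tc, Perm.coe_mul, Function.comp_apply]
  rw [swap_apply_of_ne_of_ne h1 h2, swap_apply_left]

theorem tc_b {a b c : α} (h : D3 a b c) : tc a b c b = c := by
  classical
  obtain ⟨h1, h2, h3⟩ := h
  simp only [tc, Perm.coe_mul, Function.comp_apply]
  rw [swap_apply_left, swap_apply_of_ne_of_ne h2.symm h3.symm]

theorem tc_c {a b c : α} (_h : D3 a b c) : tc a b c c = a := by
  classical
  simp only [tc, Perm.coe_mul, Function.comp_apply]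
  rw [swap_apply_right, swap_apply_right]

theorem tc_of_ne {a b c z : α} (h1 : z ≠ a) (h2 : z ≠ b) (h3 : z ≠ c) : tc a b c z = z := by
  classical
  simp only [tc, Perm.coe_mul, Function.comp_apply]
  rw [swap_apply_of_ne_of_ne h2 h3, swap_apply_of_ne_of_ne h1 h2]

theorem tc_conj (σ : Perm α) (a b c : α) : σ * tc a b c * σ⁻¹ = tc (σ a) (σ b) (σ c) := by
  classical
  simp only [tc]
  rw [swap_apply_apply, swap_apply_apply]
  group

theorem tc_rot {a b c : α} (h : D3 a b c) : tc a b c = tc b c a := by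
  classical
  ext z
  by_cases h1 : z = a
  · subst h1; rw [tc_a h, tc_c ⟨h.2.2, h.1.symm, h.2.1.symm⟩]
  by_cases h2 : z = b
  · subst h2; rw [tc_b h, tc_a ⟨h.2.2, h.1.symm, h.2.1.symm⟩]
  by_cases h3 : z = c
  · subst h3; rw [tc_c h, tc_b ⟨h.2.2, h.1.symm, h.2.1.symm⟩]
  rw [tc_of_ne h1 h2 h3, tc_of_ne h2 h3 h1]

theorem tc_inv {a b c : α} (h : D3 a b c) : (tc a b c)⁻¹ = tc c b a := by
  rw [inv_eq_iff_mul_eq_one]
  ext z
  have h' : D3 c b a := ⟨h.2.2.symm, h.2.1.symm, h.1.symm⟩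
  simp only [Perm.coe_mul, Function.comp_apply, Perm.coe_one, id_eq]
  by_cases h1 : z = a
  · subst h1; rw [tc_c h', tc_c h]
  by_cases h2 : z = b
  · subst h2; rw [tc_b h', tc_a h]
  by_cases h3 : z = c
  · subst h3; rw [tc_a h', tc_b h]
  rw [tc_of_ne h3 h2 h1, tc_of_ne h1 h2 h3]

theorem tc_cube {a b c : α} (h : D3 a b c) : (tc a b c) ^ 3 = 1 := by
  ext z
  simp only [pow_succ, pow_zero, one_mul, Perm.coe_mul, Function.comp_apply, Perm.coe_one, id_eq]
  by_cases h1 : z = a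
  · subst h1; rw [tc_a h, tc_b h, tc_c h]
  by_cases h2 : z = b
  · subst h2; rw [tc_b h, tc_c h, tc_a h]
  by_cases h3 : z = c
  · subst h3; rw [tc_c h, tc_a h, tc_b h]
  rw [tc_of_ne h1 h2 h3, tc_of_ne h1 h2 h3, tc_of_ne h1 h2 h3]

theorem tc_comm {a b c d e : α} (h1 : D3 a b c) (h2 : D3 a d e) (h3 : D3 b d e)
    (h4 : D3 c d e) :
    tc a b d * tc a c e * (tc a b d)⁻¹ * (tc a c e)⁻¹ = tc a b c := by
  have e1 : D3 a b d := ⟨h1.1, h2.1, h3.1⟩
  have e2 : D3 a c e := ⟨h1.2.1, h2.2.1, h4.2.1⟩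
  rw [tc_inv e1, tc_inv e2]
  have e1' : D3 d b a := ⟨h3.1.symm, h2.1.symm, h1.1.symm⟩
  have e2' : D3 e c a := ⟨h4.2.1.symm, h2.2.1.symm, h1.2.1.symm⟩
  have hde : d ≠ e := h2.2.2
  ext z
  simp only [Perm.coe_mul, Function.comp_apply]
  by_cases k1 : z = a
  · subst k1
    rw [tc_c e2', tc_of_ne hde.symm h3.2.1.symm e2'.2.1, tc_c e2, tc_a e1, tc_a h1]
  by_cases k2 : z = b
  · subst k2
    rw [tc_of_ne h3.2.1 h1.2.2 k1, tc_b e1', tc_a e2,
      tc_of_ne h1.2.1.symm h1.2.2.symm h4.1, tc_b h1]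
  by_cases k3 : z = c
  · subst k3
    rw [tc_b e2', tc_c e1', tc_of_ne h2.1.symm h4.1.symm hde, tc_c e1, tc_c h1]
  by_cases k4 : z = d
  · subst k4
    rw [tc_of_ne hde k3 k1, tc_a e1', tc_of_ne h1.1.symm h1.2.2 h3.2.1, tc_b e1,
      tc_of_ne k1 k2 k3]
  by_cases k5 : z = e
  · subst k5
    rw [tc_a e2', tc_of_ne h4.1 h1.2.2.symm h1.2.1.symm, tc_b e2, tc_of_ne k1 k2 k4,
      tc_of_ne k1 k2 k3]
  rw [tc_of_ne k5 k3 k1, tc_of_ne k4 k2 k1, tc_of_ne k1 k3 k5, tc_of_ne k1 k2 k4,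
    tc_of_ne k1 k2 k3]

end tc

variable {A : Type} {l : ℕ}

/-- a self map of the configuration space is given by an element of `N` -/
def InN (N : Subgroup (AutG A)) (f : (ℤ → A) → (ℤ → A)) : Prop := ∃ g ∈ N, ∀ x, g.1 x = f x

theorem InN.comp {N : Subgroup (AutG A)} {f g : (ℤ → A) → (ℤ → A)} (hf : InN N f)
    (hg : InN N g) : InN N (fun x => f (g x)) := by
  obtain ⟨a, ha, ha'⟩ := hf
  obtain ⟨b, hb, hb'⟩ := hg
  exact ⟨a * b, N.mul_mem ha hb, fun x => by rw [AutG.mul_apply, hb', ha']⟩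

theorem InN_act {N : Subgroup (AutG A)} {F : Fam A l} (c : F.CtlG) :
    InN N (actf c.1) ↔ F.act c ∈ N := by
  constructor
  · rintro ⟨g, hg, h⟩
    have : g = F.act c := AutG.ext' h
    rwa [← this]
  · intro h
    exact ⟨_, h, fun x => rfl⟩

/-- good controls -/
structure Fam.Good (F : Fam A l) (C : (ℤ → A) → ℤ → Prop) : Prop where
  sh : ∀ x n p, F.site x (p + n) → (C (sh n x) p ↔ C x (p + n))
  loc : ∃ r : ℕ, ∀ (x y : ℤ → A) (p : ℤ), (∀ i : ℤ, p - r ≤ i → i ≤ p + r → x i = y i) →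
    F.site x p → C x p → C y p
  inv : ∀ x y, F.Mod x y → ∀ p, F.site x p → C x p → C y p

theorem Fam.Good.inv_iff {F : Fam A l} {C : (ℤ → A) → ℤ → Prop} (h : F.Good C) {x y : ℤ → A}
    (hm : F.Mod x y) {p : ℤ} (hp : F.site x p) : C x p ↔ C y p :=
  ⟨h.inv x y hm p hp, h.inv y x hm.symm p (hm.site hp)⟩

theorem Fam.good_true (F : Fam A l) : F.Good (fun _ _ => True) :=
  ⟨fun _ _ _ _ => Iff.rfl, ⟨0, fun _ _ _ _ _ _ => trivial⟩, fun _ _ _ _ _ _ => trivial⟩

theorem Fam.Good.loc_iff {F : Fam A l} {C : (ℤ → A) → ℤ → Prop} (h : F.Good C) :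
    ∃ r : ℕ, ∀ (x y : ℤ → A) (p : ℤ), (∀ i : ℤ, p - r ≤ i → i ≤ p + r → x i = y i) →
      ((F.site x p ∧ C x p) ↔ (F.site y p ∧ C y p)) := by
  obtain ⟨r, hr⟩ := h.loc
  obtain ⟨s, hs⟩ := F.site_loc
  refine ⟨r + s, fun x y p hxy => ?_⟩
  push_cast at hxy
  constructor
  · rintro ⟨h1, h2⟩
    exact ⟨hs x y p (fun i h1 h2 => hxy i (by omega) (by omega)) h1,
      hr x y p (fun i h1 h2 => hxy i (by omega) (by omega)) h1 h2⟩
  · rintro ⟨h1, h2⟩
    exact ⟨hs y x p (fun i h1 h2 => (hxy i (by omega) (by omega)).symm) h1,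
      hr y x p (fun i h1 h2 => (hxy i (by omega) (by omega)).symm) h1 h2⟩

theorem Fam.Good.not {F : Fam A l} {C : (ℤ → A) → ℤ → Prop} (h : F.Good C) :
    F.Good (fun x p => ¬ C x p) := by
  obtain ⟨r, hr⟩ := h.loc_iff
  refine ⟨fun x n p hp => not_congr (h.sh x n p hp), ?_, fun x y hm p hp hc => ?_⟩
  · obtain ⟨s, hs⟩ := F.site_loc
    refine ⟨r + s, fun x y p hxy hp hc hc' => ?_⟩
    push_cast at hxy
    have hp' := hs x y p (fun i h1 h2 => hxy i (by omega) (by omega)) hp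
    exact hc ((hr x y p (fun i h1 h2 => hxy i (by omega) (by omega))).2 ⟨hp', hc'⟩).2
  · rwa [← h.inv_iff hm hp]

theorem Fam.Good.and {F : Fam A l} {C C' : (ℤ → A) → ℤ → Prop} (h : F.Good C)
    (h' : F.Good C') : F.Good (fun x p => C x p ∧ C' x p) := by
  obtain ⟨r, hr⟩ := h.loc
  obtain ⟨s, hs⟩ := h'.loc
  refine ⟨fun x n p hp => and_congr (h.sh x n p hp) (h'.sh x n p hp), ⟨r + s, ?_⟩, ?_⟩
  · intro x y p hxy hp hc
    push_cast at hxy
    exact ⟨hr x y p (fun i h1 h2 => hxy i (by omega) (by omega)) hp hc.1,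
      hs x y p (fun i h1 h2 => hxy i (by omega) (by omega)) hp hc.2⟩
  · intro x y hm p hp hc
    exact ⟨h.inv x y hm p hp hc.1, h'.inv x y hm p hp hc.2⟩

theorem Fam.Good.or {F : Fam A l} {C C' : (ℤ → A) → ℤ → Prop} (h : F.Good C)
    (h' : F.Good C') : F.Good (fun x p => C x p ∨ C' x p) := by
  obtain ⟨r, hr⟩ := h.loc
  obtain ⟨s, hs⟩ := h'.loc
  refine ⟨fun x n p hp => or_congr (h.sh x n p hp) (h'.sh x n p hp), ⟨r + s, ?_⟩, ?_⟩
  · intro x y p hxy hp hc
    push_cast at hxy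
    exact hc.imp (hr x y p (fun i h1 h2 => hxy i (by omega) (by omega)) hp)
      (hs x y p (fun i h1 h2 => hxy i (by omega) (by omega)) hp)
  · intro x y hm p hp hc
    exact hc.imp (h.inv x y hm p hp) (h'.inv x y hm p hp)

/-- permutations preserving the content set -/
def Fam.OK (F : Fam A l) (π : Perm (Fin l → A)) : Prop := ∀ z, π z ∈ F.Z ↔ z ∈ F.Z

theorem Fam.OK.mul {F : Fam A l} {π ρ : Perm (Fin l → A)} (h : F.OK π) (h' : F.OK ρ) :
    F.OK (π * ρ) := fun z => by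
  rw [Perm.coe_mul, Function.comp_apply, h, h']

theorem Fam.OK.inv {F : Fam A l} {π : Perm (Fin l → A)} (h : F.OK π) : F.OK π⁻¹ := fun z => by
  rw [← h]; simp

theorem Fam.ok_swap {inst : DecidableEq (Fin l → A)} {F : Fam A l} {a b : Fin l → A} (ha : a ∈ F.Z)
    (hb : b ∈ F.Z) : F.OK (swap a b) := fun z => by
  by_cases h1 : z = a
  · subst h1; rw [swap_apply_left]; exact ⟨fun _ => ha, fun _ => hb⟩
  by_cases h2 : z = b
  · subst h2; rw [swap_apply_right]; exact ⟨fun _ => hb, fun _ => ha⟩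
  rw [swap_apply_of_ne_of_ne h1 h2]

theorem Fam.ok_tc {F : Fam A l} {a b c : Fin l → A} (ha : a ∈ F.Z)
    (hb : b ∈ F.Z) (hc : c ∈ F.Z) : F.OK (tc a b c) := by
  classical
  exact (Fam.ok_swap ha hb).mul (Fam.ok_swap hb hc)

open Classical in
/-- apply `π` at the sites satisfying the control -/
noncomputable def Fam.ctl (F : Fam A l) (C : (ℤ → A) → ℤ → Prop) (π : Perm (Fin l → A)) :
    Upd A l := fun x p => if F.site x p ∧ C x p then π else 1

theorem Fam.ctl_mem {F : Fam A l} {C : (ℤ → A) → ℤ → Prop} (hC : F.Good C)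
    {π : Perm (Fin l → A)} (hπ : F.OK π) : F.ctl C π ∈ F.CtlG := by
  classical
  refine ⟨fun n x p => ?_, ?_, fun x p h => ?_, fun x p z => ?_, fun x y h => ?_⟩
  · unfold Fam.ctl
    congr 1
    by_cases h : F.site x (p + n)
    · simp [h, (F.site_sh x n p).2 h, hC.sh x n p h]
    · have : ¬ F.site (FS.sh n x) p := fun h' => h ((F.site_sh x n p).1 h')
      simp [h, this]
  · obtain ⟨r, hr⟩ := hC.loc_iff
    refine ⟨r, fun x y p h => ?_⟩
    unfold Fam.ctl
    congr 1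
    exact propext (hr x y p h)
  · unfold Fam.ctl
    rw [if_neg (fun h' => h h'.1)]
  · unfold Fam.ctl
    split_ifs
    · exact hπ z
    · rfl
  · funext p
    unfold Fam.ctl
    congr 1
    apply propext
    by_cases hp : F.site x p
    · rw [← h.site_iff, hC.inv_iff h hp]
    · rw [← h.site_iff]; simp [hp]

theorem Fam.ctl_mul (F : Fam A l) (C : (ℤ → A) → ℤ → Prop) (π ρ : Perm (Fin l → A)) :
    F.ctl C π * F.ctl C ρ = F.ctl C (π * ρ) := by
  classical
  funext x p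
  simp only [Pi.mul_apply, Fam.ctl]
  split_ifs <;> simp

theorem Fam.ctl_inv (F : Fam A l) (C : (ℤ → A) → ℤ → Prop) (π : Perm (Fin l → A)) :
    (F.ctl C π)⁻¹ = F.ctl C π⁻¹ := by
  classical
  funext x p
  simp only [Pi.inv_apply, Fam.ctl]
  split_ifs <;> simp

theorem Fam.ctl_congr {F : Fam A l} {F' : Fam A l} {C C' : (ℤ → A) → ℤ → Prop}
    (h : ∀ x p, (F.site x p ∧ C x p) ↔ (F'.site x p ∧ C' x p)) (π : Perm (Fin l → A)) :
    F.ctl C π = F'.ctl C' π := by
  classical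
  funext x p
  simp only [Fam.ctl, h]

/-- smaller controls -/
theorem sub_ctl {N : Subgroup (AutG A)} [N.Normal] {F : Fam A l} {C C₁ : (ℤ → A) → ℤ → Prop}
    (hC₁ : F.Good C₁) (hC : F.Good C) (hsub : ∀ x p, F.site x p → C x p → C₁ x p)
    {a b c d e : Fin l → A} (ha : a ∈ F.Z) (hb : b ∈ F.Z) (hc : c ∈ F.Z) (hd : d ∈ F.Z)
    (he : e ∈ F.Z) (h1 : D3 a b c) (h2 : D3 a d e) (h3 : D3 b d e) (h4 : D3 c d e)
    (h : InN N (actf (F.ctl C₁ (tc a b d)))) : InN N (actf (F.ctl C (tc a b c))) := by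
  classical
  have m1 := Fam.ctl_mem hC₁ (Fam.ok_tc ha hb hd)
  have m2 := Fam.ctl_mem hC (Fam.ok_tc ha hc he)
  have m3 := Fam.ctl_mem hC (Fam.ok_tc ha hb hc)
  have key : F.ctl C (tc a b c) = F.ctl C₁ (tc a b d) * F.ctl C (tc a c e) *
      (F.ctl C₁ (tc a b d))⁻¹ * (F.ctl C (tc a c e))⁻¹ := by
    funext x p
    simp only [Pi.mul_apply, Pi.inv_apply, Fam.ctl]
    by_cases hp : F.site x p
    · by_cases hq : C x p
      · simp [hp, hq, hsub x p hp hq, tc_comm h1 h2 h3 h4]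
      · simp [hq]
    · simp [hp]
  have g1 := (InN_act (N := N) ⟨_, m1⟩).1 h
  have g2 : F.act ⟨_, m3⟩ = F.act ⟨_, m1⟩ * F.act ⟨_, m2⟩ * (F.act ⟨_, m1⟩)⁻¹ *
      (F.act ⟨_, m2⟩)⁻¹ := by
    rw [← map_inv, ← map_inv, ← map_mul, ← map_mul, ← map_mul]
    congr 1
    exact Subtype.ext key
  refine (InN_act (N := N) ⟨_, m3⟩).2 ?_
  rw [g2]
  have g3 : F.act ⟨_, m2⟩ * (F.act ⟨_, m1⟩)⁻¹ * (F.act ⟨_, m2⟩)⁻¹ ∈ N :=
    Subgroup.Normal.conj_mem inferInstance _ (N.inv_mem g1) _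
  have := N.mul_mem g1 g3
  simpa [mul_assoc] using this

/-- disjoint unions of controls -/
theorem InN_union {N : Subgroup (AutG A)} {F : Fam A l} {C C₁ C₂ : (ℤ → A) → ℤ → Prop}
    (hC₁ : F.Good C₁) (hC₂ : F.Good C₂)
    (h : ∀ x p, F.site x p → (C x p ↔ C₁ x p ∨ C₂ x p))
    (hd : ∀ x p, F.site x p → ¬ (C₁ x p ∧ C₂ x p)) {π : Perm (Fin l → A)} (hπ : F.OK π)
    (i1 : InN N (actf (F.ctl C₁ π))) (i2 : InN N (actf (F.ctl C₂ π))) :
    InN N (actf (F.ctl C π)) := by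
  classical
  have m1 := Fam.ctl_mem hC₁ hπ
  have m2 := Fam.ctl_mem hC₂ hπ
  have key : F.ctl C π = F.ctl C₁ π * F.ctl C₂ π := by
    funext x p
    simp only [Pi.mul_apply, Fam.ctl]
    by_cases hp : F.site x p
    · have e1 := h x p hp
      have e2 := hd x p hp
      by_cases q1 : C₁ x p <;> by_cases q2 : C₂ x p <;> simp_all
    · simp [hp]
  rw [key]
  have := i1.comp i2
  convert this using 2 with x
  exact (actf_comp m1 m2 x).symm

theorem InN_empty (N : Subgroup (AutG A)) (F : Fam A l) {C : (ℤ → A) → ℤ → Prop}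
    (h : ∀ x p, F.site x p → ¬ C x p) (π : Perm (Fin l → A)) : InN N (actf (F.ctl C π)) := by
  classical
  refine ⟨1, N.one_mem, fun x => ?_⟩
  have : F.ctl C π = 1 := by
    funext x p
    simp only [Fam.ctl, Pi.one_apply]
    rw [if_neg]
    rintro ⟨h1, h2⟩
    exact h x p h1 h2
  rw [this, actf_one]; rfl

theorem Fam.good_congr {F : Fam A l} {C C' : (ℤ → A) → ℤ → Prop} (h : F.Good C)
    (hh : ∀ x p, F.site x p → (C' x p ↔ C x p)) : F.Good C' := by
  obtain ⟨r, hr⟩ := h.loc_iff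
  obtain ⟨s, hs⟩ := F.site_loc
  refine ⟨fun x n p hp => ?_, ⟨r + s, fun x y p hxy hp hc => ?_⟩, fun x y hm p hp hc => ?_⟩
  · rw [hh _ _ hp, hh _ _ ((F.site_sh x n p).2 hp), h.sh x n p hp]
  · push_cast at hxy
    have := (hr x y p (fun i h1 h2 => hxy i (by omega) (by omega))).1 ⟨hp, (hh _ _ hp).1 hc⟩
    exact (hh _ _ this.1).2 this.2
  · exact (hh _ _ (hm.site hp)).2 (h.inv x y hm p hp ((hh _ _ hp).1 hc))

/-- Finite partitions of a control. -/
theorem InN_label {N : Subgroup (AutG A)} {F : Fam A l} {C : (ℤ → A) → ℤ → Prop}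
    {R : Type} [Finite R] (f : (ℤ → A) → ℤ → R)
    (hf : ∀ r, F.Good (fun x p => C x p ∧ f x p = r)) {π : Perm (Fin l → A)} (hπ : F.OK π)
    (h : ∀ r, InN N (actf (F.ctl (fun x p => C x p ∧ f x p = r) π))) :
    InN N (actf (F.ctl C π)) := by
  classical
  have := Fintype.ofFinite R
  have key : ∀ S : Finset R, F.Good (fun x p => C x p ∧ f x p ∈ S) ∧
      InN N (actf (F.ctl (fun x p => C x p ∧ f x p ∈ S) π)) := by
    intro S
    induction S using Finset.induction_on with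
    | empty =>
      refine ⟨?_, InN_empty N F (by simp) π⟩
      exact Fam.good_congr F.good_true.not (by simp)
    | insert r S hr ih =>
      obtain ⟨g1, g2⟩ := ih
      refine ⟨Fam.good_congr ((hf r).or g1) fun x p _ => ?_, ?_⟩
      · simp only [Finset.mem_insert]; tauto
      · refine InN_union (hf r) g1 (fun x p _ => ?_) (fun x p _ => ?_) hπ (h r) g2
        · simp only [Finset.mem_insert]; tauto
        · rintro ⟨⟨_, h1⟩, _, h2⟩
          rw [h1] at h2
          exact hr h2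
  have k := (key Finset.univ).2
  simpa using k

theorem exists_ok_perm {F : Fam A l} {a b c a' b' c' : Fin l → A} (ha : a ∈ F.Z) (hb : b ∈ F.Z)
    (hc : c ∈ F.Z) (ha' : a' ∈ F.Z) (hb' : b' ∈ F.Z) (hc' : c' ∈ F.Z) (h : D3 a b c)
    (h' : D3 a' b' c') : ∃ σ : Perm (Fin l → A), F.OK σ ∧ σ a = a' ∧ σ b = b' ∧ σ c = c' := by
  classical
  obtain ⟨h1, h2, h3⟩ := h
  obtain ⟨k1, k2, k3⟩ := h'
  let s1 : Perm (Fin l → A) := swap a a'
  have o1 : F.OK s1 := Fam.ok_swap ha ha'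
  have e1 : s1 a = a' := swap_apply_left _ _
  let s2 : Perm (Fin l → A) := swap (s1 b) b'
  have o2 : F.OK s2 := Fam.ok_swap ((o1 b).2 hb) hb'
  have n1 : a' ≠ s1 b := fun he => h1 (s1.injective (e1.trans he))
  have e2 : s2 a' = a' := swap_apply_of_ne_of_ne n1 k1
  have e3 : s2 (s1 b) = b' := swap_apply_left _ _
  let s3 : Perm (Fin l → A) := swap (s2 (s1 c)) c'
  have o3 : F.OK s3 := Fam.ok_swap ((o2 _).2 ((o1 c).2 hc)) hc'
  have n2 : a' ≠ s2 (s1 c) := fun he => by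
    have := (e2.trans he)
    have := s2.injective this
    exact h2 (s1.injective (e1.trans this))
  have n3 : b' ≠ s2 (s1 c) := fun he => by
    have := s2.injective (e3.trans he)
    exact h3 (s1.injective this)
  refine ⟨s3 * s2 * s1, (o3.mul o2).mul o1, ?_, ?_, ?_⟩
  · simp only [Perm.coe_mul, Function.comp_apply, e1, e2]
    exact swap_apply_of_ne_of_ne n2 k2
  · simp only [Perm.coe_mul, Function.comp_apply, e3]
    exact swap_apply_of_ne_of_ne n3 k3
  · simp only [Perm.coe_mul, Function.comp_apply]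
    exact swap_apply_left _ _

/-- All three cycles of a family are conjugate. -/
theorem InN_tc {N : Subgroup (AutG A)} [N.Normal] {F : Fam A l} {C : (ℤ → A) → ℤ → Prop}
    (hC : F.Good C) {a b c a' b' c' : Fin l → A} (ha : a ∈ F.Z) (hb : b ∈ F.Z)
    (hc : c ∈ F.Z) (ha' : a' ∈ F.Z) (hb' : b' ∈ F.Z) (hc' : c' ∈ F.Z) (h : D3 a b c)
    (h' : D3 a' b' c') (hi : InN N (actf (F.ctl C (tc a b c)))) :
    InN N (actf (F.ctl C (tc a' b' c'))) := by
  obtain ⟨σ, hσ, rfl, rfl, rfl⟩ := exists_ok_perm ha hb hc ha' hb' hc' h h'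
  have m1 := Fam.ctl_mem hC (Fam.ok_tc ha hb hc)
  have m2 := Fam.ctl_mem hC hσ
  have m3 := Fam.ctl_mem hC (Fam.ok_tc ha' hb' hc')
  have g1 := (InN_act (N := N) ⟨_, m1⟩).1 hi
  refine (InN_act (N := N) ⟨_, m3⟩).2 ?_
  have : F.act ⟨_, m3⟩ = F.act ⟨_, m2⟩ * F.act ⟨_, m1⟩ * (F.act ⟨_, m2⟩)⁻¹ := by
    rw [← map_inv, ← map_mul, ← map_mul]
    congr 1
    apply Subtype.ext
    change F.ctl C (tc (σ a) (σ b) (σ c)) = F.ctl C σ * F.ctl C (tc a b c) * (F.ctl C σ)⁻¹
    rw [Fam.ctl_inv, Fam.ctl_mul, Fam.ctl_mul, tc_conj]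
  rw [this]
  exact Subgroup.Normal.conj_mem inferInstance _ g1 _

/-- Restriction of a family to an invariant set of boxes. -/
def Fam.restrict (F : Fam A l) (C : (ℤ → A) → ℤ → Prop) (hC : F.Good C) : Fam A l where
  site x p := F.site x p ∧ C x p
  Z := F.Z
  site_sh x n p := by
    rw [F.site_sh]
    exact and_congr_right fun h => hC.sh x n p h
  site_loc := by
    obtain ⟨r, hr⟩ := hC.loc_iff
    exact ⟨r, fun x y p h hp => (hr x y p h).1 hp⟩
  memZ x p h := F.memZ x p h.1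
  disj x p q hp hq h := F.disj x p q hp.1 hq.1 h
  inv x y h1 h2 p hp := by
    have hm : F.Mod x y := by
      constructor
      · intro j hj
        exact h1 j fun p hp => hj p hp.1
      · intro q hq
        by_cases hc : C x q
        · exact h2 q ⟨hq, hc⟩
        · have : cont l y q = cont l x q := by
            apply cont_congr
            intro i h0 hl
            apply h1
            intro r hr
            have hne : q ≠ r := by rintro rfl; exact hc hr.2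
            rcases F.disj' hq hr.1 hne with h | h <;> omega
          rw [this]
          exact F.memZ x q hq
    exact ⟨hm.site hp.1, hC.inv x y hm p hp.1 hp.2⟩

theorem Fam.restrict_mod {F : Fam A l} {C : (ℤ → A) → ℤ → Prop} {hC : F.Good C}
    {x y : ℤ → A} (h : (F.restrict C hC).Mod x y) : F.Mod x y := by
  constructor
  · intro j hj
    exact h.1 j fun p hp => hj p hp.1
  · intro q hq
    by_cases hc : C x q
    · exact h.2 q ⟨hq, hc⟩
    · have : cont l y q = cont l x q := by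
        apply cont_congr
        intro i h0 hl
        apply h.1
        intro r hr
        have hne : q ≠ r := by rintro rfl; exact hc hr.2
        rcases F.disj' hq hr.1 hne with h | h <;> omega
      rw [this]
      exact F.memZ x q hq

theorem Fam.restrict_ctl {F : Fam A l} {C : (ℤ → A) → ℤ → Prop} {hC : F.Good C}
    (C' : (ℤ → A) → ℤ → Prop) (π : Perm (Fin l → A)) :
    (F.restrict C hC).ctl C' π = F.ctl (fun x p => C x p ∧ C' x p) π :=
  Fam.ctl_congr (fun x p => by simp only [Fam.restrict]; tauto) π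

end Pool.Agent.TH27.FS
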