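import Pool.Agent.TH27.FS.El
import Pool.Agent.TH553.FS_K3
import Pool.Agent.TH142.FS.K4
import Pool.Agent.TH286.FS.K9
import Pool.Agent.TH989.J688
import Pool.Agent.TH989.J689

/-!
# Deepness
-/

set_option autoImplicit false

namespace Pool.Agent.TH27.FS

open Equiv

variable {A : Type}

theorem TB.RI_all [Finite A] (T : TB A) {N : Subgroup (AutG A)} [N.Normal] (h5 : T.Five)
    (hK : KR T.S N (T.n + 2 * T.S.μ + 1)) : ∀ i : ℕ, 1 ≤ i → ∀ a b c : Fin T.n → A, a ∈ T.Z →
      b ∈ T.Z → c ∈ T.Z → D3 a b c → InN N (actf (T.F.ctl (T.RI i) (tc a b c))) := by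
  intro i hi
  induction i, hi using Nat.le_induction with
  | base =>
    intro a b c ha hb hc habc
    have h1 := T.R1b h5 (fun a b c ha hb hc h => T.R1a h5 hK ha hb hc h) ha hb hc habc
    have h2 : T.F.ctl (T.RI 1) (tc a b c) =
        T.F.ctl (fun x p => ¬ T.site x (p + T.d)) (tc a b c) := by
      apply Fam.ctl_congr
      intro x p
      change (T.site x p ∧ T.RI 1 x p) ↔ (T.site x p ∧ ¬ T.site x (p + T.d))
      unfold TB.RI
      constructor
      · rintro ⟨h1, _, h2⟩
        exact ⟨h1, by simpa using h2⟩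
      · rintro ⟨h1, h2⟩
        refine ⟨h1, fun k hk hk' => ?_, by simpa using h2⟩
        have : k = 0 := by
          have : k < 1 := by exact_mod_cast hk'
          omega
        rw [this]; simpa using h1
    rw [h2]
    exact h1
  | succ i hi ih =>
    intro a b c ha hb hc habc
    exact T.R2 h5 hi ih ha hb hc habc

/-- Deepness -/
theorem TB.deep [Finite A] (T : TB A) {N : Subgroup (AutG A)} [N.Normal] (h5 : T.Five)
    (hK : KR T.S N (T.n + 2 * T.S.μ + 1))
    (hK' : KR T.S.rev (revN N) (T.n + 2 * T.S.μ + 1)) : T.Deep N := by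
  apply T.deep_of h5 (T.RI_all h5 hK)
  intro i hi a b c ha hb hc habc
  apply InN_LI_of_rev T ha hb hc habc
  have hr : ∀ z ∈ T.Z, z ∘ Fin.rev ∈ T.rev.Z := by
    intro z hz
    change (z ∘ Fin.rev) ∘ Fin.rev ∈ T.Z
    have : (z ∘ Fin.rev) ∘ Fin.rev = z := by
      funext i; simp
    rwa [this]
  have hinj : Function.Injective (fun z : Fin T.n → A => z ∘ Fin.rev) := by
    intro z z' h
    funext i
    have := congrFun h (Fin.rev i)
    simpa using this
  exact T.rev.RI_all (TB.rev_five h5) hK' i hi _ _ _ (hr a ha) (hr b hb) (hr c hc)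
    ⟨hinj.ne habc.1, hinj.ne habc.2.1, hinj.ne habc.2.2⟩

end Pool.Agent.TH27.FS
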