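import Pool.Agent.TH27.FS.Box

/-!
# Further definitions: deepness, reversal, levels
-/

set_option autoImplicit false

namespace Pool.Agent.TH27.FS

open Equiv

variable {A : Type}

/-- all three cycles of all gap box families of level `l` with marker `≠ 4` are in `N` -/
def KR (S : MS A) (N : Subgroup (AutG A)) (l : ℕ) : Prop :=
  ∀ (w : Fin 5) (ρ : Fin S.μ → A), w ≠ 4 → ∀ a b c : Fin l → A, a ∈ (S.FA w l ρ).Z →
    b ∈ (S.FA w l ρ).Z → c ∈ (S.FA w l ρ).Z → D3 a b c →
    InN N (actf ((S.FA w l ρ).ctl (fun _ _ => True) (tc a b c)))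

/-- smaller content set -/
@[reducible] def TB.sub (T : TB A) (Z' : Set (Fin T.n → A)) (h : Z' ⊆ T.Z) : TB A :=
  { T with Z := Z', hZ := fun z hz => T.hZ z (h hz) }

/-- right index: the first box to the right which is missing has number `i` -/
def TB.RI (T : TB A) (i : ℕ) (x : ℤ → A) (p : ℤ) : Prop :=
  (∀ k : ℤ, 0 ≤ k → k < i → T.site x (p + k * T.d)) ∧ ¬ T.site x (p + i * T.d)

/-- left index: the first box to the left which is missing has number `i` -/
def TB.LI (T : TB A) (i : ℕ) (x : ℤ → A) (p : ℤ) : Prop :=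
  (∀ k : ℤ, 0 ≤ k → k < i → T.site x (p - k * T.d)) ∧ ¬ T.site x (p - i * T.d)

/-- deep boxes -/
def TB.D (T : TB A) (R : ℕ) (x : ℤ → A) (p : ℤ) : Prop :=
  ∀ k : ℤ, -R ≤ k → k ≤ R → T.site x (p + k * T.d)

/-- concatenations of marked boxes -/
def TB.Sset (T : TB A) : Set (ℤ → A) := {x | ∃ p, ∀ k : ℤ, T.site x (p + k * T.d)}

/-- the three cycle on the contents of all marked boxes -/
noncomputable def TB.g (T : TB A) {a b c : Fin T.n → A} (ha : a ∈ T.Z) (hb : b ∈ T.Z)
    (hc : c ∈ T.Z) : AutG A :=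
  T.F.act ⟨T.F.ctl (fun _ _ => True) (tc a b c), Fam.ctl_mem T.F.good_true (Fam.ok_tc ha hb hc)⟩

theorem TB.g_apply (T : TB A) {a b c : Fin T.n → A} (ha : a ∈ T.Z) (hb : b ∈ T.Z)
    (hc : c ∈ T.Z) (x : ℤ → A) :
    (T.g ha hb hc).1 x = actf (T.F.ctl (fun _ _ => True) (tc a b c)) x := rfl

/-- the conclusion of the deepness argument -/
def TB.Deep (T : TB A) (N : Subgroup (AutG A)) : Prop :=
  ∀ (R : ℕ) (a b c : Fin T.n → A), a ∈ T.Z → b ∈ T.Z → c ∈ T.Z → D3 a b c →
    InN N (actf (T.F.ctl (fun x p => ¬ T.D R x p) (tc a b c)))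

/-- at least five contents -/
def TB.Five (T : TB A) : Prop :=
  ∀ a b c, a ∈ T.Z → b ∈ T.Z → c ∈ T.Z → D3 a b c →
    ∃ d ∈ T.Z, ∃ e ∈ T.Z, D3 a d e ∧ D3 b d e ∧ D3 c d e

/-- reversed configuration -/
def rev (x : ℤ → A) : ℤ → A := fun j => x (-j)

@[simp] theorem rev_rev (x : ℤ → A) : rev (rev x) = x := by
  funext j; simp [rev]

theorem rev_sh (n : ℤ) (x : ℤ → A) : rev (sh n x) = sh (-n) (rev x) := by
  funext j; simp [rev, sh]; congr 1; ring

theorem LocalMap.rev {f : (ℤ → A) → (ℤ → A)} (h : LocalMap f) :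
    LocalMap (fun x => rev (f (rev x))) := by
  obtain ⟨r, hr⟩ := h
  refine ⟨r, fun x y n hxy => ?_⟩
  change f (FS.rev x) (-n) = f (FS.rev y) (-n)
  apply hr
  intro i h1 h2
  change x (-i) = y (-i)
  exact hxy _ (by linarith) (by linarith)

/-- conjugation with the reversal -/
def revG : AutG A ≃* AutG A where
  toFun g := ⟨
    { toFun := fun x => rev (g.1 (rev x))
      invFun := fun x => rev (g.1.symm (rev x))
      left_inv := fun x => by simp
      right_inv := fun x => by simp },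
    fun n x => by
      change rev (g.1 (rev (sh n x))) = sh n (rev (g.1 (rev x)))
      rw [rev_sh, AutG.comm, rev_sh, neg_neg], g.2.2.1.rev, g.2.2.2.rev⟩
  invFun g := ⟨
    { toFun := fun x => rev (g.1 (rev x))
      invFun := fun x => rev (g.1.symm (rev x))
      left_inv := fun x => by simp
      right_inv := fun x => by simp },
    fun n x => by
      change rev (g.1 (rev (sh n x))) = sh n (rev (g.1 (rev x)))
      rw [rev_sh, AutG.comm, rev_sh, neg_neg], g.2.2.1.rev, g.2.2.2.rev⟩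
  left_inv g := AutG.ext' fun x => by
    change rev (rev (g.1 (rev (rev x)))) = g.1 x
    simp
  right_inv g := AutG.ext' fun x => by
    change rev (rev (g.1 (rev (rev x)))) = g.1 x
    simp
  map_mul' g h := AutG.ext' fun x => by
    change rev (g.1 (h.1 (rev x))) = rev (g.1 (rev (rev (h.1 (rev x)))))
    simp

theorem revG_apply (g : AutG A) (x : ℤ → A) : (revG g).1 x = rev (g.1 (rev x)) := rfl

/-- reversed subgroup -/
def revN (N : Subgroup (AutG A)) : Subgroup (AutG A) := N.comap (revG (A := A)).toMonoidHom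

theorem mem_revN {N : Subgroup (AutG A)} {g : AutG A} : g ∈ revN N ↔ revG g ∈ N := Iff.rfl

theorem revG_revG (g : AutG A) : revG (revG g) = g := AutG.ext' fun x => by
  change rev (rev (g.1 (rev (rev x)))) = g.1 x
  simp

theorem revN_revN (N : Subgroup (AutG A)) : revN (revN N) = N := by
  ext g
  rw [mem_revN, mem_revN, revG_revG]

instance (N : Subgroup (AutG A)) [h : N.Normal] : (revN N).Normal := h.comap _

/-- reversed marker system -/
@[reducible] def MS.rev (S : MS A) : MS A where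
  μ := S.μ
  hμ := S.hμ
  wd a i := S.wd a (S.μ - 1 - i)
  bad := S.bad
  no a b s h1 h2 := by
    obtain ⟨i, hi, hi', hne⟩ := S.no b a s h1 h2
    refine ⟨S.μ - 1 - i - s, by omega, by omega, ?_⟩
    rw [show (S.μ : ℤ) - 1 - (S.μ - 1 - i - s + s) = i by ring,
      show (S.μ : ℤ) - 1 - (S.μ - 1 - i - s) = i + s by ring]
    exact hne.symm
  ne a b h := by
    obtain ⟨i, hi, hi', hne⟩ := S.ne a b h
    refine ⟨S.μ - 1 - i, by omega, by omega, ?_⟩
    rw [show (S.μ : ℤ) - 1 - (S.μ - 1 - i) = i by ring]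
    exact hne
  hbad a := by
    obtain ⟨i, hi, hi', hb⟩ := S.hbad a
    refine ⟨S.μ - 1 - i, by omega, by omega, ?_⟩
    rw [show (S.μ : ℤ) - 1 - (S.μ - 1 - i) = i by ring]
    exact hb
  o := S.o
  e := S.e
  ho := S.ho
  he := S.he
  hoe := S.hoe

@[simp] theorem MS.rev_μ (S : MS A) : S.rev.μ = S.μ := rfl

theorem MS.rev_rev (S : MS A) : S.rev.rev = S := by
  obtain ⟨μ, hμ, wd, bad, no, ne, hbad, o, e, ho, he, hoe⟩ := S
  have : (fun (a : Fin 5) (i : ℤ) => wd a ((μ : ℤ) - 1 - ((μ : ℤ) - 1 - i))) = wd := by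
    funext a i; congr 1; ring
  simp only [MS.rev, this]

/-- reversed box data -/
@[reducible] def TB.rev (T : TB A) : TB A where
  S := T.S.rev
  M := T.M
  u := T.v
  v := T.u
  w := T.w
  hMu := T.hMv
  hMv := T.hMu
  hMw := T.hMw
  huv := T.huv.symm
  huw := T.hvw
  hvw := T.huw
  hu4 := T.hv4
  hv4 := T.hu4
  n := T.n
  Z := {z | z ∘ Fin.rev ∈ T.Z}
  hZ z hz i := by
    have := T.hZ _ hz (Fin.rev i)
    have h2 : ¬ T.S.bad (z i) := by simpa using this
    exact h2

@[simp] theorem TB.rev_d (T : TB A) : T.rev.d = T.d := rfl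

@[simp] theorem TB.rev_n (T : TB A) : T.rev.n = T.n := rfl

@[simp] theorem TB.sub_d (T : TB A) (Z' : Set (Fin T.n → A)) (h : Z' ⊆ T.Z) :
    (T.sub Z' h).d = T.d := rfl

theorem TB.sub_site (T : TB A) (Z' : Set (Fin T.n → A)) (h : Z' ⊆ T.Z) (x : ℤ → A) (p : ℤ) :
    (T.sub Z' h).site x p ↔ T.site x p ∧ cont T.n x p ∈ Z' := by
  constructor
  · rintro ⟨h1, h2, h3, h4, h5⟩
    exact ⟨⟨h1, h2, h h3, h4, h5⟩, h3⟩
  · rintro ⟨⟨h1, h2, h3, h4, h5⟩, h3'⟩
    exact ⟨h1, h2, h3', h4, h5⟩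

end Pool.Agent.TH27.FS
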