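import Pool.Agent.TH27.FS.Cross
set_option autoImplicit false
namespace Pool.Agent.TH27.FS
open Equiv

/-- same window -/
theorem same_window {A : Type} {l : ℕ} {F F' : Fam A l} {C C' : (ℤ → A) → ℤ → Prop}
    {a b c : Fin l → A}
    (H : ∀ x p, (cont l x p = a ∨ cont l x p = b ∨ cont l x p = c) →
      ((F.site x p ∧ C x p) ↔ (F'.site x p ∧ C' x p))) :
    actf (F.ctl C (tc a b c)) = actf (F'.ctl C' (tc a b c)) := by
  classical
  funext x
  unfold actf
  congr 1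
  funext p
  by_cases h2 : cont l x p = a ∨ cont l x p = b ∨ cont l x p = c
  · have h3 := H x p h2
    rw [move, move, Fam.ctl, Fam.ctl]
    by_cases h4 : F.site x p ∧ C x p
    · rw [if_pos h4, if_pos (h3.1 h4)]
    · rw [if_neg h4, if_neg (fun h5 => h4 (h3.2 h5))]
  · push Not at h2
    rw [move_one, move_one]
    · rw [Fam.ctl]
      split_ifs
      · exact tc_of_ne h2.1 h2.2.1 h2.2.2
      · rfl
    · rw [Fam.ctl]
      split_ifs
      · exact tc_of_ne h2.1 h2.2.1 h2.2.2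
      · rfl

/-- the element of `AutG` given by a controlled permutation -/
noncomputable def Fam.el {A : Type} {l : ℕ} (F : Fam A l) {C : (ℤ → A) → ℤ → Prop} (hC : F.Good C)
    {π : Perm (Fin l → A)} (hπ : F.OK π) : AutG A := F.act ⟨_, Fam.ctl_mem hC hπ⟩

theorem Fam.el_apply {A : Type} {l : ℕ} (F : Fam A l) {C : (ℤ → A) → ℤ → Prop} (hC : F.Good C)
    {π : Perm (Fin l → A)} (hπ : F.OK π) (x : ℤ → A) :
    (F.el hC hπ).1 x = actf (F.ctl C π) x := rfl

theorem Fam.el_mem {A : Type} {l : ℕ} {N : Subgroup (AutG A)} {F : Fam A l}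
    {C : (ℤ → A) → ℤ → Prop} {hC : F.Good C} {π : Perm (Fin l → A)} {hπ : F.OK π} :
    F.el hC hπ ∈ N ↔ InN N (actf (F.ctl C π)) := (InN_act (N := N) ⟨_, _⟩).symm

theorem Fam.el_inv {A : Type} {l : ℕ} {F : Fam A l}
    {C : (ℤ → A) → ℤ → Prop} (hC : F.Good C) {π : Perm (Fin l → A)} (hπ : F.OK π) :
    (F.el hC hπ)⁻¹ = F.el hC hπ.inv := by
  unfold Fam.el
  rw [← map_inv]
  congr 1
  exact Subtype.ext (Fam.ctl_inv F C π)

theorem Fam.el_mul {A : Type} {l : ℕ} {F : Fam A l}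
    {C : (ℤ → A) → ℤ → Prop} (hC : F.Good C) {π ρ : Perm (Fin l → A)} (hπ : F.OK π)
    (hρ : F.OK ρ) : F.el hC hπ * F.el hC hρ = F.el hC (hπ.mul hρ) := by
  unfold Fam.el
  rw [← map_mul]
  congr 1
  exact Subtype.ext (Fam.ctl_mul F C π ρ)

/-- splitting by a control -/
theorem Fam.el_split {A : Type} {l : ℕ} {F : Fam A l}
    {C : (ℤ → A) → ℤ → Prop} (hC : F.Good C) {π : Perm (Fin l → A)} (hπ : F.OK π) :
    F.el F.good_true hπ = F.el hC hπ * F.el hC.not hπ := by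
  classical
  unfold Fam.el
  rw [← map_mul]
  congr 1
  apply Subtype.ext
  change F.ctl (fun _ _ => True) π = F.ctl C π * F.ctl (fun x p => ¬ C x p) π
  funext x p
  simp only [Pi.mul_apply, Fam.ctl]
  by_cases hp : F.site x p
  · by_cases q1 : C x p <;> simp [hp, q1]
  · simp [hp]

theorem TB.g_eq_el {A : Type} (T : TB A) {a b c : Fin T.n → A} (ha : a ∈ T.Z) (hb : b ∈ T.Z)
    (hc : c ∈ T.Z) : T.g ha hb hc = T.F.el T.F.good_true (Fam.ok_tc ha hb hc) := rfl

theorem TB.sub_g {A : Type} (T : TB A) (Z' : Set (Fin T.n → A)) (h : Z' ⊆ T.Z)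
    {a b c : Fin T.n → A} (ha : a ∈ Z') (hb : b ∈ Z') (hc : c ∈ Z') :
    (T.sub Z' h).g ha hb hc = T.g (h ha) (h hb) (h hc) := by
  apply AutG.ext'
  intro x
  change actf ((T.sub Z' h).F.ctl (fun _ _ => True) (tc a b c)) x = actf (T.F.ctl (fun _ _ => True) (tc a b c)) x
  refine congrFun (same_window fun x p hp => ?_) x
  change ((T.sub Z' h).site x p ∧ True) ↔ (T.site x p ∧ True)
  rw [TB.sub_site]
  have : cont T.n x p ∈ Z' := by
    rcases hp with hp | hp | hp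
    · exact hp ▸ ha
    · exact hp ▸ hb
    · exact hp ▸ hc
  tauto

end Pool.Agent.TH27.FS
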