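import Pool.Agent.TH27.FS.Comm
import Pool.Agent.TH27.FS.Deep
import Pool.Agent.TH553.FS_K1
import Pool.Agent.TH553.FS_K2
import Pool.Agent.TH553.FS_CHL
import Pool.Agent.TH553.FS_Orb
import Pool.Agent.TH500.ThreeCyc
import Pool.Agent.TH182.J513
import Pool.Agent.TH554.J514

/-!
# The automorphism groups of the full 2-shift and the full 3-shift are not isomorphic
-/

set_option autoImplicit false

namespace Pool.Agent.TH27.FS

open Equiv

variable {A : Type}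

theorem exists_markers : ∀ M : Fin 5, M ≠ 4 → ∃ u v w : Fin 5, M ≠ u ∧ M ≠ v ∧ M ≠ w ∧ u ≠ v ∧
    u ≠ w ∧ v ≠ w ∧ u ≠ 4 ∧ v ≠ 4 := by decide

/-- words in the two letters `o`, `e` -/
def MS.bw (S : MS A) (n : ℕ) (t : Fin n → Bool) : Fin n → A := fun i => if t i then S.e else S.o

theorem MS.bw_inj (S : MS A) (n : ℕ) : Function.Injective (S.bw n) := by
  intro t t' h
  funext i
  have := congrFun h i
  unfold MS.bw at this
  have hoe := S.hoe
  cases h1 : t i <;> cases h2 : t' i <;> simp_all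

theorem MS.bw_card (S : MS A) (n : ℕ) (hn : 10 ≤ n) (_inst : DecidableEq (Fin n → A)) :
    14 ≤ (Finset.univ.image (S.bw n)).card := by
  rw [Finset.card_image_of_injective _ (S.bw_inj n), Finset.card_univ, Fintype.card_fun,
      Fintype.card_bool, Fintype.card_fin]
  calc 14 ≤ 2 ^ 10 := by norm_num
    _ ≤ 2 ^ n := Nat.pow_le_pow_right (by norm_num) hn

theorem theta_eq_of {k : ℕ} (g : AutG A) (x y : PP A k) (j : ℤ) (h : g.1 x.1 = sh j y.1) :
    theta A k g (Quotient.mk _ x : Orb A k) = (Quotient.mk _ y : Orb A k) := by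
  rw [theta_mk]
  apply Quotient.sound
  refine ⟨-j, ?_⟩
  change y.1 = sh (-j) (g.1 x.1)
  rw [h, sh_sh]; simp

/-- the box system with contents all words in the letters `o`, `e` -/
def mkTB (S : MS A) (M u v w : Fin 5) (h : M ≠ u ∧ M ≠ v ∧ M ≠ w ∧ u ≠ v ∧
    u ≠ w ∧ v ≠ w ∧ u ≠ 4 ∧ v ≠ 4) (n : ℕ) : TB A where
  S := S
  M := M
  u := u
  v := v
  w := w
  hMu := h.1
  hMv := h.2.1
  hMw := h.2.2.1
  huv := h.2.2.2.1
  huw := h.2.2.2.2.1
  hvw := h.2.2.2.2.2.1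
  hu4 := h.2.2.2.2.2.2.1
  hv4 := h.2.2.2.2.2.2.2
  n := n
  Z := Set.range (S.bw n)
  hZ := by
    rintro z ⟨t, rfl⟩ i
    unfold MS.bw
    split_ifs
    · exact S.he
    · exact S.ho

theorem isThreeCycle_tc {α : Type} [Fintype α] [DecidableEq α] {a b c : α} (h : D3 a b c) :
    (tc a b c).IsThreeCycle := by
  have := Equiv.Perm.isThreeCycle_swap_mul_swap_same (a := b) (b := a) (c := c) h.1.symm h.2.2
    h.2.1
  rw [swap_comm b a] at this
  unfold tc
  convert this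

theorem exists_three_distinct {α : Type} (s : Finset α) (h : 3 ≤ s.card) :
    ∃ a ∈ s, ∃ b ∈ s, ∃ c ∈ s, D3 a b c := by
  classical
  obtain ⟨a, b, c, ha, hb, hc, h1, h2, h3⟩ := Finset.two_lt_card_iff.1 h
  exact ⟨a, ha, b, hb, c, hc, h1, h2, h3⟩

theorem card_of_failure [Fintype A] [Nontrivial A] (S : MS A)
    (hO : ∀ d ≥ 10, 6 ≤ Nat.card (Orb A d)) {Ω : Type} [Fintype Ω] [DecidableEq Ω]
    (hΩ : 5 ≤ Fintype.card Ω) (ψ : AutG A →* Perm Ω) (hψ : Function.Surjective ψ) {l : ℕ}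
    (hl : 2 * S.μ + 10 ≤ l) (h1 : KR S ψ.ker (l + 1)) (h2 : KR S.rev (revN ψ.ker) (l + 1))
    (h3 : ¬ KR S ψ.ker l) : ∃ m, 1 ≤ m ∧ Nat.card (Orb A m) = Fintype.card Ω := by
  classical
  unfold KR at h3
  push Not at h3
  obtain ⟨M, ρ, hM, a', b', c', ha', hb', hc', h', hn⟩ := h3
  have hρ : ρ = fun i : Fin S.μ => S.wd M (i : ℕ) := by
    by_contra hρ
    exact hn (KR_step S h1 hM hρ ha' hb' hc' h')
  subst hρ
  obtain ⟨n, rfl⟩ : ∃ n, l = n + 2 * S.μ := ⟨l - 2 * S.μ, by omega⟩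
  have hn10 : 10 ≤ n := by omega
  obtain ⟨u, v, w, hm⟩ := exists_markers M hM
  set T : TB A := mkTB S M u v w hm n with hT
  have hdeep : ∀ (Z' : Set (Fin T.n → A)) (h : Z' ⊆ T.Z), (T.sub Z' h).Five →
      (T.sub Z' h).Deep ψ.ker := by
    intro Z' h h5
    exact TB.deep _ h5 h1 h2
  set S₀ : Finset (Fin T.n → A) := Finset.univ.image (S.bw n) with hS₀
  have hS₀Z : ∀ z ∈ S₀, z ∈ T.Z := by
    intro z hz
    obtain ⟨t, _, rfl⟩ := Finset.mem_image.1 hz
    exact ⟨t, rfl⟩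
  have hS₀c : 14 ≤ S₀.card := S.bw_card n hn10 _
  obtain ⟨a, haS, b, hbS, c, hcS, habc⟩ := exists_three_distinct S₀ (by omega)
  have ha := hS₀Z a haS
  have hb := hS₀Z b hbS
  have hc := hS₀Z c hcS
  set f := T.g ha hb hc with hf
  have hfN : ψ f ≠ 1 := by
    intro hf1
    exact hn (TB_of_FA T ha hb hc habc hf1 ha' hb' hc' h')
  -- the degree
  have hd : 10 ≤ T.d.toNat := by
    have : T.d = n + 3 * S.μ := rfl
    omega
  have hfin : Finite (Orb A T.d.toNat) := orb_finite A (by omega)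
  let _ : Fintype (Orb A T.d.toNat) := Fintype.ofFinite _
  refine ⟨T.d.toNat, by omega, ?_⟩
  rw [Nat.card_eq_fintype_card]
  have hθf : theta A T.d.toNat f = tc (T.orb ha) (T.orb hb) (T.orb hc) := T.theta_g ha hb hc habc
  have hD3 : D3 (T.orb ha) (T.orb hb) (T.orb hc) :=
    ⟨fun h => habc.1 (T.orb_inj ha hb h), fun h => habc.2.1 (T.orb_inj ha hc h),
      fun h => habc.2.2 (T.orb_inj hb hc h)⟩
  have hf3 : f ^ 3 = 1 := by
    rw [hf, TB.g_eq_el, pow_succ, pow_succ, pow_one, Fam.el_mul, Fam.el_mul]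
    apply AutG.ext'
    intro x
    rw [Fam.el_apply]
    have : tc a b c * tc a b c * tc a b c = 1 := by
      have := tc_cube habc
      rwa [pow_succ, pow_succ, pow_one] at this
    rw [this]
    have h1 : T.F.ctl (fun _ _ => True) 1 = 1 := by
      funext x p
      simp [Fam.ctl]
    rw [h1, actf_one]; rfl
  have hmove : ∀ (g : AutG A) (z : Fin T.n → A) (hz : z ∈ T.Z), (z = a ∨ z = b ∨ z = c) →
      theta A T.d.toNat (g * f * g⁻¹) (theta A T.d.toNat g (T.orb hz)) ≠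
        theta A T.d.toNat g (T.orb hz) := by
    intro g z hz hz' h
    rw [map_mul, map_mul, map_inv, hθf] at h
    have e : ∀ y, (theta A T.d.toNat g)⁻¹ (theta A T.d.toNat g y) = y := fun y => by simp
    simp only [Perm.coe_mul, Function.comp_apply, e, EmbeddingLike.apply_eq_iff_eq] at h
    rcases hz' with rfl | rfl | rfl
    · rw [tc_a hD3] at h; exact hD3.1 h.symm
    · rw [tc_b hD3] at h; exact hD3.2.2 h.symm
    · rw [tc_c hD3] at h; exact hD3.2.1 h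
  refine card_eq_of_three_cycles (theta A T.d.toNat) ψ
    (Pool.Agent.TH554.J514.theta_surjective A _ (by omega)) hψ ?_ hΩ
    {t | ∃ g, t = g * f * g⁻¹} ?_ ?_ ?_ ?_ ?_
  · rw [← Nat.card_eq_fintype_card]; exact hO _ hd
  · rintro g _ ⟨g', rfl⟩
    exact ⟨g * g', by group⟩
  · rintro _ ⟨g, rfl⟩
    rw [map_mul, map_mul, map_inv, hθf]
    rw [tc_conj]
    apply isThreeCycle_tc
    exact ⟨fun h => hD3.1 ((theta A _ g).injective h), fun h => hD3.2.1 ((theta A _ g).injective h),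
      fun h => hD3.2.2 ((theta A _ g).injective h)⟩
  · rintro _ ⟨g, rfl⟩
    rw [conj_pow, hf3]; simp
  · rintro _ ⟨g, rfl⟩ _ ⟨g', rfl⟩ hdis
    have key := T.comm_main hdeep S₀ hS₀Z hS₀c ha hb hc habc (g'⁻¹ * g) (by
      rintro w z hw hz ⟨j, hj⟩
      have hwZ : w ∈ T.Z := by rcases hw with rfl | rfl | rfl <;> assumption
      have hzZ : z ∈ T.Z := by rcases hz with rfl | rfl | rfl <;> assumption
      have e1 : theta A T.d.toNat g (T.orb hwZ) = theta A T.d.toNat g' (T.orb hzZ) := by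
        have e2 : theta A T.d.toNat (g'⁻¹ * g) (T.orb hwZ) = T.orb hzZ :=
          theta_eq_of (g'⁻¹ * g) ⟨T.py w, T.py_LP hwZ⟩ ⟨T.py z, T.py_LP hzZ⟩ j hj
        rw [map_mul, map_inv, Perm.coe_mul, Function.comp_apply, Perm.inv_eq_iff_eq] at e2
        exact e2
      rcases hdis (theta A T.d.toNat g (T.orb hwZ)) with h | h
      · exact hmove g w hwZ hw h
      · rw [e1] at h
        exact hmove g' z hzZ hz h)
    rw [← hf] at key
    have k2 : ψ ((g'⁻¹ * g) * f * (g'⁻¹ * g)⁻¹ * f * ((g'⁻¹ * g) * f * (g'⁻¹ * g)⁻¹)⁻¹ * f⁻¹) = 1 :=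
      key
    have k3 : ψ (g * f * g⁻¹) * ψ (g' * f * g'⁻¹) * (ψ (g * f * g⁻¹))⁻¹ *
        (ψ (g' * f * g'⁻¹))⁻¹ = 1 := by
      have : g * f * g⁻¹ * (g' * f * g'⁻¹) * (g * f * g⁻¹)⁻¹ * (g' * f * g'⁻¹)⁻¹ =
          g' * ((g'⁻¹ * g) * f * (g'⁻¹ * g)⁻¹ * f * ((g'⁻¹ * g) * f * (g'⁻¹ * g)⁻¹)⁻¹ * f⁻¹) *
            g'⁻¹ := by group
      rw [← map_inv, ← map_inv, ← map_mul, ← map_mul, ← map_mul, this, map_mul, map_mul, k2,
        mul_one, ← map_mul, mul_inv_cancel, map_one]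
    rw [mul_inv_eq_one, mul_inv_eq_iff_eq_mul] at k3
    exact k3
  · exact ⟨f, ⟨1, by simp⟩, hfN⟩

end Pool.Agent.TH27.FS
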